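import Mathlib

/-! Base tools: path spaces, characteristic functionals. -/

namespace Pool.Agent.R221.FB
open MeasureTheory ProbabilityTheory Set Filter
open scoped NNReal ENNReal Topology

/-- The value `exp (i * sum a_k x_k)` of a finite linear combination. -/
noncomputable def ex {ι Ω : Type*} {n : ℕ} (X : ι → Ω → ℝ) (t : Fin n → ι) (a : Fin n → ℝ)
    (ω : Ω) : ℂ := Complex.exp (((∑ k, a k * X (t k) ω : ℝ) : ℂ) * Complex.I)

/-- The process `X` has the characteristic functional of a centred Gaussian process with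
covariance `K`. -/
def GP {ι Ω : Type*} [MeasurableSpace Ω] (μ : Measure Ω) (X : ι → Ω → ℝ) (K : ι → ι → ℝ) : Prop :=
  ∀ (n : ℕ) (t : Fin n → ι) (a : Fin n → ℝ),
    ∫ ω, ex X t a ω ∂μ
      = Complex.exp (((-(∑ k, ∑ l, a k * a l * K (t k) (t l)) / 2 : ℝ)) : ℂ)

lemma ex_fintype {ι Ω : Type*} {κ : Type*} [Fintype κ] (X : ι → Ω → ℝ) (t : κ → ι) (a : κ → ℝ)
    (ω : Ω) : ex X (t ∘ (Fintype.equivFin κ).symm) (a ∘ (Fintype.equivFin κ).symm) ω =
      Complex.exp (((∑ k, a k * X (t k) ω : ℝ) : ℂ) * Complex.I) := by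
  unfold ex
  congr 3
  exact (Fintype.equivFin κ).symm.sum_comp (fun k => a k * X (t k) ω)

lemma GP.fintype {ι Ω : Type*} [MeasurableSpace Ω] {μ : Measure Ω} {X : ι → Ω → ℝ}
    {K : ι → ι → ℝ} (h : GP μ X K) {κ : Type*} [Fintype κ] (t : κ → ι) (a : κ → ℝ) :
    ∫ ω, Complex.exp (((∑ k, a k * X (t k) ω : ℝ) : ℂ) * Complex.I) ∂μ
      = Complex.exp (((-(∑ k, ∑ l, a k * a l * K (t k) (t l)) / 2 : ℝ)) : ℂ) := by
  have := h _ (t ∘ (Fintype.equivFin κ).symm) (a ∘ (Fintype.equivFin κ).symm)
  simp only [ex_fintype] at this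
  rw [this]
  congr 4
  simp only [Function.comp_apply]
  refine ((Fintype.equivFin κ).symm.sum_comp
    (fun k => ∑ l, a k * a ((Fintype.equivFin κ).symm l) * K (t k)
      (t ((Fintype.equivFin κ).symm l)))).trans ?_
  refine Finset.sum_congr rfl fun k _ => ?_
  exact (Fintype.equivFin κ).symm.sum_comp (fun l => a k * a l * K (t k) (t l))

/-- Differences of a Gaussian functional. -/
lemma GP.sub {ι ι' Ω : Type*} [MeasurableSpace Ω] {μ : Measure Ω} {X : ι → Ω → ℝ}
    {K : ι → ι → ℝ} (h : GP μ X K) (φ ψ : ι' → ι) :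
    GP μ (fun u ω => X (φ u) ω - X (ψ u) ω)
      (fun u v => K (φ u) (φ v) - K (φ u) (ψ v) - K (ψ u) (φ v) + K (ψ u) (ψ v)) := by
  intro n t a
  have h1 := h.fintype (κ := Fin n ⊕ Fin n)
    (Sum.elim (fun k => φ (t k)) (fun k => ψ (t k))) (Sum.elim a (fun k => - a k))
  have h2 : ∀ ω, (∑ k, Sum.elim a (fun k => - a k) k *
      X (Sum.elim (fun k => φ (t k)) (fun k => ψ (t k)) k) ω : ℝ) =
      ∑ k, a k * (X (φ (t k)) ω - X (ψ (t k)) ω) := by
    intro ω
    rw [Fintype.sum_sum_type]
    simp only [Sum.elim_inl, Sum.elim_inr]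
    rw [← Finset.sum_add_distrib]
    refine Finset.sum_congr rfl fun k _ => ?_
    ring
  simp only [h2] at h1
  unfold ex
  rw [h1]
  congr 4
  rw [Fintype.sum_sum_type]
  simp only [Fintype.sum_sum_type, Sum.elim_inl, Sum.elim_inr]
  rw [← Finset.sum_add_distrib]
  refine Finset.sum_congr rfl fun k _ => ?_
  rw [← Finset.sum_add_distrib, ← Finset.sum_add_distrib, ← Finset.sum_add_distrib]
  refine Finset.sum_congr rfl fun l _ => ?_
  ring

lemma GP.congr_K {ι Ω : Type*} [MeasurableSpace Ω] {μ : Measure Ω} {X : ι → Ω → ℝ}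
    {K K' : ι → ι → ℝ} (h : GP μ X K) (hK : ∀ s t, K s t = K' s t) : GP μ X K' := by
  intro n t a
  rw [h n t a]
  simp only [hK]

lemma GP.congr_X {ι Ω : Type*} [MeasurableSpace Ω] {μ : Measure Ω} {X X' : ι → Ω → ℝ}
    {K : ι → ι → ℝ} (h : GP μ X K) (hX : ∀ s, X s =ᵐ[μ] X' s) : GP μ X' K := by
  intro n t a
  rw [← h n t a]
  refine integral_congr_ae ?_
  have : ∀ᵐ ω ∂μ, ∀ k, X (t k) ω = X' (t k) ω := ae_all_iff.2 fun k => hX (t k)
  filter_upwards [this] with ω hω
  unfold ex
  simp only [hω]

/-- Two probability measures on a space generated by real functions, with the same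
characteristic functionals, are equal. -/
theorem ext_cf {E ι : Type*} [mE : MeasurableSpace E] (φ : ι → E → ℝ)
    (hm : mE = MeasurableSpace.comap (fun e i => φ i e) MeasurableSpace.pi)
    (μ ν : Measure E) [IsProbabilityMeasure μ] [IsProbabilityMeasure ν]
    (h : ∀ (n : ℕ) (t : Fin n → ι) (a : Fin n → ℝ), ∫ e, ex φ t a e ∂μ = ∫ e, ex φ t a e ∂ν) :
    μ = ν := by
  classical
  have hΦ : Measurable (fun e i => φ i e) := by
    rw [measurable_iff_comap_le]; exact hm.ge
  have hmap : μ.map (fun e i => φ i e) = ν.map (fun e i => φ i e) := by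
    have hlim : ∀ ρ : Measure E, IsProbabilityMeasure ρ →
        IsProjectiveLimit (ρ.map (fun e i => φ i e)) (fun I => ρ.map (fun e => I.restrict (fun i => φ i e))) := by
      intro ρ _ I
      rw [Measure.map_map (Finset.measurable_restrict _) hΦ]
      rfl
    have h1 := hlim μ inferInstance
    have h2 := hlim ν inferInstance
    have h3 : ∀ I : Finset ι, μ.map (fun e => I.restrict (fun i => φ i e)) =
        ν.map (fun e => I.restrict (fun i => φ i e)) := by
      intro I
      have hmI : Measurable (fun e => I.restrict (fun i => φ i e)) :=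
        (Finset.measurable_restrict I).comp hΦ
      have := Measure.isProbabilityMeasure_map (μ := μ) hmI.aemeasurable
      have := Measure.isProbabilityMeasure_map (μ := ν) hmI.aemeasurable
      refine Measure.ext_of_charFunDual ?_
      ext L
      rw [charFunDual_apply, charFunDual_apply]
      have hL : Continuous fun v : (I → ℝ) => Complex.exp ((L v : ℂ) * Complex.I) := by
        fun_prop
      rw [integral_map hmI.aemeasurable hL.aestronglyMeasurable,
        integral_map hmI.aemeasurable hL.aestronglyMeasurable]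
      have key : ∀ e, (L (I.restrict (fun i => φ i e)) : ℝ) =
          ∑ k : I, L (Pi.single k 1) * φ (k : ι) e := by
        intro e
        conv_lhs => rw [show (I.restrict (fun i => φ i e)) =
          ∑ k : I, φ (k : ι) e • (Pi.single k (1 : ℝ) : I → ℝ) from by
            ext j
            simp [Finset.sum_apply, Pi.single_apply]]
        rw [map_sum]
        refine Finset.sum_congr rfl fun k _ => ?_
        rw [map_smul, smul_eq_mul, mul_comm]
      have h4 := h _ ((fun k : I => (k : ι)) ∘ (Fintype.equivFin I).symm)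
        ((fun k : I => L (Pi.single k 1)) ∘ (Fintype.equivFin I).symm)
      simp only [ex_fintype] at h4
      simp only [key]
      exact h4
    have h4 : (fun I : Finset ι => μ.map (fun e => I.restrict (fun i => φ i e))) =
        (fun I : Finset ι => ν.map (fun e => I.restrict (fun i => φ i e))) := by
      funext I; exact h3 I
    rw [h4] at h1
    have : ∀ I : Finset ι, IsFiniteMeasure (ν.map (fun e => I.restrict (fun i => φ i e))) :=
      fun I => inferInstance
    exact h1.unique h2
  ext s hs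
  have hs' : MeasurableSet[MeasurableSpace.comap (fun e i => φ i e) MeasurableSpace.pi] s := by
    rw [← hm]; exact hs
  obtain ⟨s', hs', rfl⟩ := hs'
  rw [← Measure.map_apply hΦ hs', hmap, Measure.map_apply hΦ hs']

/-- One-sided continuous paths. -/
abbrev C1 : Type := {f : ℝ≥0 → ℝ // Continuous f}

/-- Two-sided continuous paths. -/
abbrev C2 : Type := {f : ℝ → ℝ // Continuous f}

/-- coordinates on one-sided paths -/
def ev1 (t : ℝ≥0) (f : C1) : ℝ := f.1 t

/-- coordinates on two-sided paths -/
def ev2 (t : ℝ) (f : C2) : ℝ := f.1 t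

lemma measurable_ev1 (t : ℝ≥0) : Measurable (ev1 t) :=
  (measurable_pi_apply t).comp measurable_subtype_coe

lemma measurable_ev2 (t : ℝ) : Measurable (ev2 t) :=
  (measurable_pi_apply t).comp measurable_subtype_coe

lemma measurable_into_C1 {Ω : Type*} {mΩ : MeasurableSpace Ω} {g : Ω → C1}
    (h : ∀ t, Measurable fun ω => (g ω).1 t) : Measurable g :=
  Measurable.subtype_mk (measurable_pi_iff.2 h)

lemma measurable_into_C2 {Ω : Type*} {mΩ : MeasurableSpace Ω} {g : Ω → C2}
    (h : ∀ t, Measurable fun ω => (g ω).1 t) : Measurable g :=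
  Measurable.subtype_mk (measurable_pi_iff.2 h)

lemma measurable_eval1 : Measurable (fun z : ℝ≥0 × C1 => z.2.1 z.1) :=
  measurable_uncurry_of_continuous_of_measurable (u := fun (t : ℝ≥0) (f : C1) => f.1 t)
    (fun f => f.2) (fun t => measurable_ev1 t)

lemma measurable_eval2 : Measurable (fun z : ℝ × C2 => z.2.1 z.1) :=
  measurable_uncurry_of_continuous_of_measurable (u := fun (t : ℝ) (f : C2) => f.1 t)
    (fun f => f.2) (fun t => measurable_ev2 t)

lemma comp_eval1 {Ω : Type*} {mΩ : MeasurableSpace Ω} {g : Ω → C1} {τ : Ω → ℝ≥0}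
    (hg : Measurable g) (hτ : Measurable τ) : Measurable fun ω => (g ω).1 (τ ω) :=
  measurable_eval1.comp (hτ.prodMk hg)

lemma comp_eval2 {Ω : Type*} {mΩ : MeasurableSpace Ω} {g : Ω → C2} {τ : Ω → ℝ}
    (hg : Measurable g) (hτ : Measurable τ) : Measurable fun ω => (g ω).1 (τ ω) :=
  measurable_eval2.comp (hτ.prodMk hg)

/-- the shift `(θ_s f)(t) = f(s+t) - f(s)` -/
def sh (s : ℝ) (f : C2) : C2 := ⟨fun t => f.1 (s + t) - f.1 s, by have := f.2; fun_prop⟩

/-- the past path `t ↦ f(-t) - f(0)` -/
def past (f : C2) : C1 := ⟨fun t => f.1 (-(t : ℝ)) - f.1 0, by have := f.2; fun_prop⟩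

/-- the future path `t ↦ f(t) - f(0)` -/
def fut (f : C2) : C1 := ⟨fun t => f.1 (t : ℝ) - f.1 0, by have := f.2; fun_prop⟩

/-- glue a past and a future -/
noncomputable def glue (z : C1 × C1) : C2 :=
  ⟨fun t => z.1.1 (-t).toNNReal + z.2.1 t.toNNReal, by
    have h1 := z.1.2; have h2 := z.2.2
    have h3 : Continuous fun t : ℝ => (-t).toNNReal := continuous_real_toNNReal.comp continuous_neg
    exact (h1.comp h3).add (h2.comp continuous_real_toNNReal)⟩

lemma sh_sh (s t : ℝ) (f : C2) : sh s (sh t f) = sh (s + t) f := by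
  apply Subtype.ext; funext u
  simp only [sh]
  rw [show t + (s + u) = s + t + u by ring, show t + s = s + t by ring]
  ring

lemma measurable_sh : Measurable (fun z : ℝ × C2 => sh z.1 z.2) := by
  refine measurable_into_C2 fun t => ?_
  exact (comp_eval2 measurable_snd (measurable_fst.add_const t)).sub
    (comp_eval2 measurable_snd measurable_fst)

lemma measurable_sh_s (s : ℝ) : Measurable (sh s) :=
  measurable_sh.comp (measurable_const.prodMk measurable_id)

lemma measurable_past : Measurable past :=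
  measurable_into_C1 fun t => (measurable_ev2 _).sub (measurable_ev2 _)

lemma measurable_fut : Measurable fut :=
  measurable_into_C1 fun t => (measurable_ev2 _).sub (measurable_ev2 _)

lemma measurable_glue : Measurable glue :=
  measurable_into_C2 fun t => ((measurable_ev1 _).comp measurable_fst).add
    ((measurable_ev1 _).comp measurable_snd)

lemma glue_past_fut (f : C2) : glue (past f, fut f) = sh 0 f := by
  apply Subtype.ext; funext t
  simp only [glue, past, fut, sh, zero_add]
  rcases le_total 0 t with ht | ht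
  · rw [Real.toNNReal_of_nonpos (by linarith : -t ≤ 0), Real.coe_toNNReal _ ht]
    simp
  · rw [Real.toNNReal_of_nonpos ht, Real.coe_toNNReal _ (by linarith : 0 ≤ -t)]
    simp

lemma hm1 : (inferInstance : MeasurableSpace C1) =
    MeasurableSpace.comap (fun e i => ev1 i e) MeasurableSpace.pi := rfl

lemma hm2 : (inferInstance : MeasurableSpace C2) =
    MeasurableSpace.comap (fun e i => ev2 i e) MeasurableSpace.pi := rfl

/-- coordinates on pairs of one-sided paths -/
def evp (i : ℝ≥0 ⊕ ℝ≥0) (z : C1 × C1) : ℝ := Sum.elim (fun t => z.1.1 t) (fun t => z.2.1 t) i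

lemma hmp : (inferInstance : MeasurableSpace (C1 × C1)) =
    MeasurableSpace.comap (fun e i => evp i e) MeasurableSpace.pi := by
  apply le_antisymm
  · have h1 : Measurable[MeasurableSpace.comap (fun e i => evp i e) MeasurableSpace.pi]
        (Prod.fst : C1 × C1 → C1) := by
      refine @measurable_into_C1 _ (MeasurableSpace.comap (fun e i => evp i e) MeasurableSpace.pi)
        _ fun t => ?_
      have := (measurable_pi_apply (Sum.inl t : ℝ≥0 ⊕ ℝ≥0)).comp
        (comap_measurable (fun (e : C1 × C1) i => evp i e))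
      exact this
    have h2 : Measurable[MeasurableSpace.comap (fun e i => evp i e) MeasurableSpace.pi]
        (Prod.snd : C1 × C1 → C1) := by
      refine @measurable_into_C1 _ (MeasurableSpace.comap (fun e i => evp i e) MeasurableSpace.pi)
        _ fun t => ?_
      have := (measurable_pi_apply (Sum.inr t : ℝ≥0 ⊕ ℝ≥0)).comp
        (comap_measurable (fun (e : C1 × C1) i => evp i e))
      exact this
    exact sup_le (measurable_iff_comap_le.1 h1) (measurable_iff_comap_le.1 h2)
  · rw [← measurable_iff_comap_le]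
    refine measurable_pi_iff.2 fun i => ?_
    rcases i with t | t
    · exact (measurable_ev1 t).comp measurable_fst
    · exact (measurable_ev1 t).comp measurable_snd

/-- A measure on pairs of paths is determined by the joint characteristic functionals. -/
theorem ext_pair (μ ν : Measure (C1 × C1)) [IsProbabilityMeasure μ] [IsProbabilityMeasure ν]
    (h : ∀ (n : ℕ) (t t' : Fin n → ℝ≥0) (a a' : Fin n → ℝ),
      ∫ z, ex ev1 t a z.1 * ex ev1 t' a' z.2 ∂μ = ∫ z, ex ev1 t a z.1 * ex ev1 t' a' z.2 ∂ν) :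
    μ = ν := by
  refine ext_cf evp hmp μ ν ?_
  intro n t a
  have key : ∀ z : C1 × C1, ex evp t a z =
      ex ev1 (fun k => Sum.elim id (fun _ => 0) (t k)) (fun k => Sum.elim (fun _ => a k) (fun _ => 0) (t k)) z.1
      * ex ev1 (fun k => Sum.elim (fun _ => 0) id (t k)) (fun k => Sum.elim (fun _ => 0) (fun _ => a k) (t k)) z.2 := by
    intro z
    unfold ex
    rw [← Complex.exp_add, ← add_mul, ← Complex.ofReal_add, ← Finset.sum_add_distrib]
    refine congrArg (fun x : ℝ => Complex.exp ((x : ℂ) * Complex.I)) ?_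
    refine Finset.sum_congr rfl fun k _ => ?_
    unfold evp ev1
    rcases hk : t k with u | u <;> simp [hk]
  simp only [key]
  exact h n _ _ _ _

lemma ex_norm {ι Ω : Type*} {n : ℕ} (X : ι → Ω → ℝ) (t : Fin n → ι) (a : Fin n → ℝ)
    (ω : Ω) : ‖ex X t a ω‖ = 1 := by
  unfold ex
  exact Complex.norm_exp_ofReal_mul_I _

lemma measurable_ex {ι Ω : Type*} {mΩ : MeasurableSpace Ω} {n : ℕ} {X : ι → Ω → ℝ}
    (hX : ∀ i, Measurable (X i)) (t : Fin n → ι) (a : Fin n → ℝ) : Measurable (ex X t a) := by
  unfold ex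
  have : Measurable fun ω => (∑ k, a k * X (t k) ω : ℝ) :=
    Finset.measurable_sum _ fun k _ => (hX (t k)).const_mul (a k)
  fun_prop

lemma integrable_ex {ι Ω : Type*} {mΩ : MeasurableSpace Ω} {μ : Measure Ω} [IsFiniteMeasure μ]
    {n : ℕ} {X : ι → Ω → ℝ}
    (hX : ∀ i, Measurable (X i)) (t : Fin n → ι) (a : Fin n → ℝ) : Integrable (ex X t a) μ := by
  refine Integrable.of_bound (measurable_ex hX t a).aestronglyMeasurable 1 ?_
  exact Eventually.of_forall fun ω => (ex_norm X t a ω).le

end Pool.Agent.R221.FB
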