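import Mathlib

/-! Definitions: forward, backward, two-sided Brownian motion, decomposable processes. -/

namespace Pool.Agent.R221.FB
open MeasureTheory ProbabilityTheory Set Filter
open scoped NNReal ENNReal Topology

/-- `B` is a Brownian motion (all paths continuous) with respect to the filtration `F`: it is a
Brownian motion in the sense of Mathlib, adapted to `F`, and for `s ≤ t` the increment
`B t - B s` is independent of `F s`. -/
structure IsBMFor {Ω : Type*} {mΩ : MeasurableSpace Ω} (P : Measure Ω) (F : Filtration ℝ≥0 mΩ)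
    (B : ℝ≥0 → Ω → ℝ) : Prop where
  brownian : IsBrownianReal B P
  cont : ∀ ω, Continuous fun t => B t ω
  adapted : ∀ t, Measurable[F t] (B t)
  indep : ∀ s t, s ≤ t →
    Indep (F s) (MeasurableSpace.comap (fun ω => B t ω - B s ω) inferInstance) P

/-- The data of the decomposable construction on a probability space: Brownian motions `B k` for
filtrations `F k`, finite stopping times `T k`, independence of the pairs
(path stopped at `T k`, `T k`), divergence of the two one-sided sums of the `T k`,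
the partial sums `S k` (`S 0 = 0`, `S (k+1) = S k + T k`), and the continuous process `Y` with
`Y 0 = 0` and `Y (S k + t) - Y (S k) = B k t` for `t < T k`. -/
structure Pieces {Ω : Type*} (mΩ : MeasurableSpace Ω) (P : Measure Ω) where
  F : ℤ → Filtration ℝ≥0 mΩ
  B : ℤ → ℝ≥0 → Ω → ℝ
  T : ℤ → Ω → ℝ≥0
  S : ℤ → Ω → ℝ
  Y : ℝ → Ω → ℝ
  bm : ∀ k, IsBMFor P (F k) (B k)
  stop : ∀ k t, MeasurableSet[F k t] {ω | T k ω ≤ t}
  indep : iIndepFun (fun (k : ℤ) (ω : Ω) => ((fun t : ℝ≥0 => B k (min t (T k ω)) ω), T k ω)) P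
  right : ∀ᵐ ω ∂P, ∑' n : ℕ, (T ((n : ℤ) + 1) ω : ℝ≥0∞) = ⊤
  left : ∀ᵐ ω ∂P, ∑' n : ℕ, (T (-((n : ℤ) + 1)) ω : ℝ≥0∞) = ⊤
  S_zero : ∀ ω, S 0 ω = 0
  S_succ : ∀ k ω, S (k + 1) ω = S k ω + T k ω
  Y_meas : ∀ t, Measurable (Y t)
  Y_cont : ∀ ω, Continuous fun t => Y t ω
  Y_zero : ∀ ω, Y 0 ω = 0
  Y_eq : ∀ᵐ ω ∂P, ∀ (k : ℤ) (t : ℝ≥0), t < T k ω → Y (S k ω + t) ω - Y (S k ω) ω = B k t ω

/-- `X` is decomposable: for some random time `U` the process `X_{U+t} - X_U`, `t ∈ ℝ`, has the law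
of the process `Y` of a decomposable construction (possibly on another probability space). -/
def Decomposable.{u, v} {Ω : Type u} [MeasurableSpace Ω] (P : Measure Ω) (X : ℝ → Ω → ℝ) : Prop :=
  ∃ U : Ω → ℝ, Measurable U ∧ ∃ (Ω' : Type v) (mΩ' : MeasurableSpace Ω') (P' : Measure Ω')
    (D : Pieces mΩ' P'),
    P.map (fun ω (t : ℝ) => X (U ω + t) ω - X (U ω) ω) = P'.map (fun ω (t : ℝ) => D.Y t ω)

/-- forward Brownian motion -/
def IsFBM {Ω : Type*} [MeasurableSpace Ω] (P : Measure Ω) (X : ℝ → Ω → ℝ) : Prop :=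
  ∃ S : ℕ → Ω → ℝ, (∀ n, Measurable (S n)) ∧ (∀ᵐ ω ∂P, Tendsto (fun n => S n ω) atTop atBot) ∧
    ∀ n, IsBrownianReal (fun (t : ℝ≥0) ω => X (S n ω + t) ω - X (S n ω) ω) P

/-- backward Brownian motion: the time reversal is a forward Brownian motion -/
def IsBBM {Ω : Type*} [MeasurableSpace Ω] (P : Measure Ω) (X : ℝ → Ω → ℝ) : Prop :=
  IsFBM P (fun t => X (-t))

/-- two-sided Brownian motion: from some random time `S`, the forward and the backward process are
independent Brownian motions -/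
def Is2BM {Ω : Type*} [MeasurableSpace Ω] (P : Measure Ω) (X : ℝ → Ω → ℝ) : Prop :=
  ∃ S : Ω → ℝ, Measurable S ∧
    IsBrownianReal (fun (t : ℝ≥0) ω => X (S ω + t) ω - X (S ω) ω) P ∧
    IsBrownianReal (fun (t : ℝ≥0) ω => X (S ω - t) ω - X (S ω) ω) P ∧
    IndepFun (fun ω (t : ℝ≥0) => X (S ω + t) ω - X (S ω) ω)
      (fun ω (t : ℝ≥0) => X (S ω - t) ω - X (S ω) ω) P

end Pool.Agent.R221.FB
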