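import Pool.Agent.R221.FB.Wiener

/-! Markov property of glued measures, ergodicity of two-sided Wiener measure. -/

namespace Pool.Agent.R221.FB
open MeasureTheory ProbabilityTheory Set Filter
open scoped NNReal ENNReal Topology symmDiff

/-- the past at time `s` of a glued path, in terms of the old past and the stopped future -/
def pastF (s : ℝ≥0) (z : C1 × C1) : C1 :=
  ⟨fun t => z.1.1 (t - s) + z.2.1 (s - t) - z.1.1 0 - z.2.1 s, by
    have h1 := z.1.2; have h2 := z.2.2
    have h3 : Continuous fun t : ℝ≥0 => t - s := by fun_prop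
    have h4 : Continuous fun t : ℝ≥0 => s - t := by fun_prop
    exact (((h1.comp h3).add (h2.comp h4)).sub continuous_const).sub continuous_const⟩

lemma measurable_pastF (s : ℝ≥0) : Measurable (pastF s) :=
  measurable_into_C1 fun t => ((((measurable_ev1 _).comp measurable_fst).add
    ((measurable_ev1 _).comp measurable_snd)).sub ((measurable_ev1 _).comp measurable_fst)).sub
    ((measurable_ev1 _).comp measurable_snd)

lemma past_sh_glue (s : ℝ≥0) (z : C1 × C1) :
    past (sh s (glue z)) = pastF s (z.1, stopC s z.2) := by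
  apply Subtype.ext; funext t
  simp only [past, sh, glue, pastF, stopC, add_zero, neg_add_rev, neg_neg, neg_zero, zero_add]
  have e1 : ((t : ℝ) + -(s : ℝ)).toNNReal = t - s := by
    rw [← sub_eq_add_neg, ← NNReal.sub_def]
  have e2 : ((s : ℝ) + -(t : ℝ)).toNNReal = s - t := by
    rw [← sub_eq_add_neg, ← NNReal.sub_def]
  have e3 : (-(s : ℝ)).toNNReal = 0 := Real.toNNReal_of_nonpos (by simp)
  rw [e1, e2, Real.toNNReal_coe, e3,
    min_eq_left (tsub_le_self : s - t ≤ s), min_self]
  ring

lemma fut_sh_glue (s : ℝ≥0) (z : C1 × C1) : fut (sh s (glue z)) = shiftC s z.2 := by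
  apply Subtype.ext; funext t
  simp only [fut, sh, glue, shiftC, add_zero]
  have e1 : ((s : ℝ) + (t : ℝ)).toNNReal = s + t := by
    rw [← NNReal.coe_add, Real.toNNReal_coe]
  have e2 : (-((s : ℝ) + (t : ℝ))).toNNReal = 0 :=
    Real.toNNReal_of_nonpos (by
      have := s.coe_nonneg; have := t.coe_nonneg; linarith)
  have e3 : (-(s : ℝ)).toNNReal = 0 := Real.toNNReal_of_nonpos (by simp)
  rw [e1, e2, e3, Real.toNNReal_coe]
  ring

/-- Markov property of a glued measure. -/
lemma glue_markov {W μ : Measure C1} [IsProbabilityMeasure μ] (h : IsW W) (s : ℝ≥0) :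
    ((μ.prod W).map glue).map (fun f => (past (sh s f), fut (sh s f))) =
      (((μ.prod W).map glue).map (fun f => past (sh s f))).prod W := by
  have := h.prob
  have hps : Measurable fun f : C2 => past (sh s f) := measurable_past.comp (measurable_sh_s s)
  have hfs : Measurable fun f : C2 => fut (sh s f) := measurable_fut.comp (measurable_sh_s s)
  rw [Measure.map_map (hps.prodMk hfs) measurable_glue, Measure.map_map hps measurable_glue]
  have e1 : (fun f : C2 => (past (sh s f), fut (sh s f))) ∘ glue =
      fun z => (pastF s (z.1, stopC s z.2), shiftC s z.2) := by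
    funext z
    simp only [Function.comp_apply, past_sh_glue, fut_sh_glue]
  have e2 : (fun f : C2 => past (sh s f)) ∘ glue =
      fun z => pastF s (z.1, stopC s z.2) := by
    funext z
    simp only [Function.comp_apply, past_sh_glue]
  rw [e1, e2]
  have hst := measurable_stopC s
  have hsf := measurable_shiftC s
  -- joint law of (w, (stop, shift))
  have h1 : (μ.prod W).map (Prod.map id (fun b => (stopC s b, shiftC s b))) =
      μ.prod ((W.map (stopC s)).prod W) := by
    rw [← Measure.map_prod_map μ W measurable_id (hst.prodMk hsf), Measure.map_id, h.markov s]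
  have := Measure.isProbabilityMeasure_map (μ := W) hst.aemeasurable
  have h2 : (μ.prod ((W.map (stopC s)).prod W)).map MeasurableEquiv.prodAssoc.symm =
      (μ.prod (W.map (stopC s))).prod W := by
    have := Measure.prodAssoc_prod (μ := μ) (ν := W.map (stopC s)) (τ := W)
    rw [← this, Measure.map_map MeasurableEquiv.prodAssoc.symm.measurable
      MeasurableEquiv.prodAssoc.measurable]
    simp
  have e3 : (fun z : C1 × C1 => (pastF s (z.1, stopC s z.2), shiftC s z.2)) =
      (Prod.map (pastF s) id) ∘ MeasurableEquiv.prodAssoc.symm ∘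
        (Prod.map id (fun b => (stopC s b, shiftC s b))) := rfl
  have hm1 : Measurable (Prod.map id (fun b => (stopC s b, shiftC s b)) :
      C1 × C1 → C1 × (C1 × C1)) := measurable_id.prodMap (hst.prodMk hsf)
  have hm2 : Measurable (Prod.map (pastF s) id : (C1 × C1) × C1 → C1 × C1) :=
    (measurable_pastF s).prodMap measurable_id
  rw [e3, ← Measure.map_map hm2 (MeasurableEquiv.prodAssoc.symm.measurable.comp hm1),
    ← Measure.map_map MeasurableEquiv.prodAssoc.symm.measurable hm1, h1, h2,
    ← Measure.map_prod_map _ _ (measurable_pastF s) measurable_id, Measure.map_id]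
  congr 1
  have e4 : (fun z : C1 × C1 => pastF s (z.1, stopC s z.2)) =
      pastF s ∘ (Prod.map id (stopC s)) := rfl
  rw [e4, ← Measure.map_map (measurable_pastF s) (measurable_id.prodMap hst),
    ← Measure.map_prod_map μ W measurable_id hst, Measure.map_id]

/-- A measurable set of paths invariant under all shifts. -/
def Inv (A : Set C2) : Prop := MeasurableSet A ∧ ∀ s : ℝ, sh s ⁻¹' A = A

/-- The section function of an invariant set. -/
noncomputable def G (W : Measure C1) (A : Set C2) (w : C1) : ℝ≥0∞ := W {b | glue (w, b) ∈ A}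

lemma measurable_G {W : Measure C1} (h : IsW W) {A : Set C2} (hA : MeasurableSet A) :
    Measurable (G W A) := by
  have := h.prob
  exact measurable_measure_prodMk_left (measurable_glue hA)

lemma lintegral_G {W μ : Measure C1} [IsProbabilityMeasure μ] (h : IsW W) {A : Set C2}
    (hA : MeasurableSet A) : ∫⁻ w, G W A w ∂μ = (μ.prod W) (glue ⁻¹' A) := by
  have := h.prob
  rw [Measure.prod_apply (measurable_glue hA)]
  rfl

/-- Key identity: the mean of `G` over the past at any fixed nonnegative time. -/
lemma lintegral_G_past {W μ : Measure C1} [IsProbabilityMeasure μ] (h : IsW W) {A : Set C2}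
    (hA : Inv A) (s : ℝ≥0) :
    ∫⁻ f, G W A (past (sh s f)) ∂((μ.prod W).map glue) = ((μ.prod W).map glue) A := by
  have := h.prob
  have hps : Measurable fun f : C2 => past (sh s f) := measurable_past.comp (measurable_sh_s s)
  have hfs : Measurable fun f : C2 => fut (sh s f) := measurable_fut.comp (measurable_sh_s s)
  have := Measure.isProbabilityMeasure_map (μ := μ.prod W) measurable_glue.aemeasurable
  have := Measure.isProbabilityMeasure_map (μ := (μ.prod W).map glue) hps.aemeasurable
  rw [← lintegral_map (measurable_G h hA.1) hps, lintegral_G h hA.1, ← glue_markov h s,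
    Measure.map_apply (hps.prodMk hfs) (measurable_glue hA.1)]
  congr 1
  ext f
  simp only [mem_preimage, glue_past_fut]
  rw [sh_sh, zero_add, ← mem_preimage, hA.2 s]

/-- Ergodicity: invariant sets have measure `0` or `1` for the two-sided Wiener measure. -/
theorem erg {W : Measure C1} (h : IsW W) {A : Set C2} (hA : Inv A) :
    Q2 W A = 0 ∨ Q2 W A = 1 := by
  have := h.prob
  have := Q2_prob h
  set Q := Q2 W with hQdef
  -- approximation by cylinders
  have key : ∀ ε : ℝ, 0 < ε → |Q.real A - Q.real A * Q.real A| ≤ 4 * ε := by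
    intro ε hε
    obtain ⟨A', hA', hAA'⟩ := hA.1
    have hval : Measurable (Subtype.val : C2 → (ℝ → ℝ)) := measurable_subtype_coe
    have := Measure.isProbabilityMeasure_map (μ := Q) hval.aemeasurable
    have hdense := Measure.MeasureDense.of_generateFrom_isSetAlgebra_finite
      (μ := Q.map Subtype.val) (𝒜 := measurableCylinders (fun _ : ℝ => ℝ))
      isSetAlgebra_measurableCylinders generateFrom_measurableCylinders.symm
    obtain ⟨D', hD', hDA⟩ := hdense.approx A' hA' (measure_ne_top _ _) ε hε
    obtain ⟨I, S, hS, hD'S⟩ := (mem_measurableCylinders D').1 hD'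
    have hD'm : MeasurableSet D' := by rw [hD'S]; exact hS.cylinder I
    set D : Set C2 := Subtype.val ⁻¹' D' with hDdef
    have hDm : MeasurableSet D := hval hD'm
    have hAD : Q.real (A ∆ D) ≤ ε := by
      rw [Measure.map_apply hval (hA'.symmDiff hD'm)] at hDA
      have : A ∆ D = Subtype.val ⁻¹' (A' ∆ D') := by
        rw [← hAA', hDdef]; rfl
      rw [this, Measure.real]
      exact ENNReal.toReal_le_of_le_ofReal hε.le hDA.le
    -- a bound for the cylinder base
    obtain ⟨n, hn⟩ : ∃ n : ℕ, ∀ t ∈ I, |t| ≤ (n : ℝ) := by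
      obtain ⟨M, hM⟩ := (I.image fun t => |t|).bddAbove
      refine ⟨⌈M⌉₊, fun t ht => le_trans (hM ?_) (Nat.le_ceil M)⟩
      exact Finset.mem_coe.2 (Finset.mem_image_of_mem _ ht)
    -- the shifted cylinders
    have hsh : ∀ s : ℝ, Q.real (A ∆ (sh s ⁻¹' D)) ≤ ε := by
      intro s
      have h1 : A ∆ (sh s ⁻¹' D) = sh s ⁻¹' (A ∆ D) := by
        conv_lhs => rw [← hA.2 s]
        rfl
      have h2 : Q.real (sh s ⁻¹' (A ∆ D)) = Q.real (A ∆ D) := by
        rw [Measure.real, Measure.real, ← Measure.map_apply (measurable_sh_s s)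
          (hA.1.symmDiff hDm), Q2_sh h s]
      rw [h1, h2]; exact hAD
    have hshD : ∀ s : ℝ, Q.real (sh s ⁻¹' D) = Q.real D := by
      intro s
      rw [Measure.real, Measure.real, ← Measure.map_apply (measurable_sh_s s) hDm, Q2_sh h s]
    -- independence
    have hfutW : Q.map fut = W := by
      have h1 := glue_law (μ := W) h h.zero
      have h2 : (((W.prod W).map glue).map (fun f => (past f, fut f))).map Prod.snd =
          (W.prod W).map Prod.snd := by rw [h1]
      rw [Measure.map_map measurable_snd (measurable_past.prodMk measurable_fut)] at h2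
      have h3 : (W.prod W).map Prod.snd = W := by
        have := Measure.map_snd_prod (μ := W) (ν := W)
        simpa using this
      rw [h3] at h2
      exact h2
    set S1 : Set C1 := {b | (fun t : I => b.1 ((n : ℝ) + t).toNNReal - b.1 (n : ℝ≥0)) ∈ S}
      with hS1
    have hS1m : MeasurableSet S1 := by
      have : Measurable fun b : C1 => (fun t : I => b.1 ((n : ℝ) + t).toNNReal - b.1 (n : ℝ≥0)) :=
        measurable_pi_iff.2 fun t => (measurable_ev1 _).sub (measurable_ev1 _)
      exact this hS
    have hD1 : sh (n : ℝ) ⁻¹' D = fut ⁻¹' (stopC (2 * n) ⁻¹' S1) := by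
      ext f
      simp only [mem_preimage, hDdef, hD'S, mem_cylinder, hS1, Set.mem_ofPred_eq]
      have : I.restrict (sh (n : ℝ) f).1 =
          fun t : I => (stopC (2 * n) (fut f)).1 ((n : ℝ) + t).toNNReal
            - (stopC (2 * n) (fut f)).1 (n : ℝ≥0) := by
        funext t
        have ht := hn t t.2
        rw [abs_le] at ht
        simp only [Finset.restrict, sh, stopC, fut]
        rw [min_eq_left, min_eq_left, Real.coe_toNNReal _ (by linarith), NNReal.coe_natCast]
        · ring
        · have : (n : ℝ≥0) ≤ n + n := le_self_add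
          rw [two_mul]; exact this
        · rw [Real.toNNReal_le_iff_le_coe]; push_cast; linarith
      rw [this]
    have hD2 : sh (3 * n : ℝ) ⁻¹' D = fut ⁻¹' (shiftC (2 * n) ⁻¹' S1) := by
      ext f
      simp only [mem_preimage, hDdef, hD'S, mem_cylinder, hS1, Set.mem_ofPred_eq]
      have : I.restrict (sh (3 * n : ℝ) f).1 =
          fun t : I => (shiftC (2 * n) (fut f)).1 ((n : ℝ) + t).toNNReal
            - (shiftC (2 * n) (fut f)).1 (n : ℝ≥0) := by
        funext t
        have ht := hn t t.2
        rw [abs_le] at ht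
        simp only [Finset.restrict, sh, shiftC, fut]
        push_cast
        rw [Real.coe_toNNReal _ (by linarith : (0:ℝ) ≤ n + t)]
        rw [show (3 * n : ℝ) + t = 2 * n + (n + t) by ring,
          show (3 * n : ℝ) = 2 * n + n by ring]
        ring
      rw [this]
    have hindep : Q.real (sh (n : ℝ) ⁻¹' D ∩ sh (3 * n : ℝ) ⁻¹' D) =
        Q.real (sh (n : ℝ) ⁻¹' D) * Q.real (sh (3 * n : ℝ) ⁻¹' D) := by
      rw [hD1, hD2, ← preimage_inter]
      have hm1 : MeasurableSet (stopC (2 * n) ⁻¹' S1) := measurable_stopC _ hS1m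
      have hm2 : MeasurableSet (shiftC (2 * n) ⁻¹' S1) := measurable_shiftC _ hS1m
      have e : ∀ B : Set C1, MeasurableSet B → Q.real (fut ⁻¹' B) = W.real B := by
        intro B hB
        rw [Measure.real, Measure.real, ← Measure.map_apply measurable_fut hB, hfutW]
      rw [e _ (hm1.inter hm2), e _ hm1, e _ hm2]
      have h3 := (h.indep (2 * n)).measure_inter_preimage_eq_mul S1 S1 hS1m hS1m
      rw [Measure.real, h3, ENNReal.toReal_mul]
      rfl
    -- conclusion
    have h1 : |Q.real A - Q.real (sh (n : ℝ) ⁻¹' D ∩ sh (3 * n : ℝ) ⁻¹' D)| ≤ 2 * ε := by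
      have hsub : A ∆ (sh (n : ℝ) ⁻¹' D ∩ sh (3 * n : ℝ) ⁻¹' D) ⊆
          (A ∆ (sh (n : ℝ) ⁻¹' D)) ∪ (A ∆ (sh (3 * n : ℝ) ⁻¹' D)) := by
        intro f hf
        rcases hf with ⟨hf1, hf2⟩ | ⟨hf1, hf2⟩
        · by_cases hfn : f ∈ sh (n : ℝ) ⁻¹' D
          · right; left; exact ⟨hf1, fun h' => hf2 ⟨hfn, h'⟩⟩
          · left; left; exact ⟨hf1, hfn⟩
        · left; right; exact ⟨hf1.1, hf2⟩
      have h2 := abs_measureReal_sub_le_measureReal_symmDiff (μ := Q) hA.1.nullMeasurableSet
        (((measurable_sh_s _ hDm).inter (measurable_sh_s _ hDm)).nullMeasurableSet :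
          NullMeasurableSet (sh (n : ℝ) ⁻¹' D ∩ sh (3 * n : ℝ) ⁻¹' D) Q)
      refine h2.trans ((measureReal_mono hsub).trans ((measureReal_union_le _ _).trans ?_))
      linarith [hsh n, hsh (3 * n)]
    rw [hindep, hshD, hshD] at h1
    have h2 : |Q.real A - Q.real D| ≤ ε :=
      (abs_measureReal_sub_le_measureReal_symmDiff (μ := Q) hA.1.nullMeasurableSet
        hDm.nullMeasurableSet).trans hAD
    have hA0 : 0 ≤ Q.real A := measureReal_nonneg
    have hA1 : Q.real A ≤ 1 := measureReal_le_one
    have hD0 : 0 ≤ Q.real D := measureReal_nonneg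
    have hD1' : Q.real D ≤ 1 := measureReal_le_one
    rw [abs_le] at h1 h2 ⊢
    constructor <;> nlinarith
  have h0 : Q.real A = Q.real A * Q.real A := by
    by_contra hne
    have hpos : 0 < |Q.real A - Q.real A * Q.real A| := abs_pos.2 (sub_ne_zero.2 hne)
    have := key (|Q.real A - Q.real A * Q.real A| / 8) (by positivity)
    linarith
  have h1 : Q.real A = 0 ∨ Q.real A = 1 := by
    have : Q.real A * (Q.real A - 1) = 0 := by linarith
    rcases mul_eq_zero.1 this with h | h
    · left; exact h
    · right; linarith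
  rcases h1 with h1 | h1
  · left
    exact (measureReal_eq_zero_iff).1 h1
  · right
    rw [Measure.real] at h1
    rwa [ENNReal.toReal_eq_one_iff] at h1

end Pool.Agent.R221.FB
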