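import Mathlib

/-!
# Shift coupling (Thorisson), randomized form

Let `θ : ℝ → E → E` be a jointly measurable flow and `Q` a probability measure invariant under the
flow.  If the probability measure `P` agrees with `Q` on all measurable sets which are invariant under
the flow, then there is a randomized time `h` such that `θ (h (x, u)) x` has law `Q` if `(x, u)` has law
`P × Lebesgue`.  (helper258)
-/

set_option autoImplicit false

open MeasureTheory ProbabilityTheory Set Filter Topology
open scoped ENNReal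

namespace Pool.Agent.R221.FB

namespace ShiftAux

variable {E : Type} [MeasurableSpace E]

/-- invariant sets -/
def Inv (θ : ℝ → E → E) (A : Set E) : Prop := MeasurableSet A ∧ ∀ s, θ s ⁻¹' A = A

/-- the auxiliary probability measure on the time axis -/
noncomputable def rho : Measure ℝ := gaussianReal 0 1

instance : IsProbabilityMeasure rho := by unfold rho; infer_instance

lemma rho_zero (A : Set ℝ) (h : volume A = 0) : rho A = 0 :=
  gaussianReal_absolutelyContinuous 0 (by norm_num) h

lemma zero_of_rho (A : Set ℝ) (h : rho A = 0) : volume A = 0 :=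
  gaussianReal_absolutelyContinuous' 0 (by norm_num : (1 : NNReal) ≠ 0) h

/-- the map `(x, s) ↦ θ s x` -/
def TT (θ : ℝ → E → E) (z : E × ℝ) : E := θ z.2 z.1

variable {θ : ℝ → E → E}

lemma meas_TT (hθm : Measurable (fun p : ℝ × E => θ p.1 p.2)) : Measurable (TT θ) :=
  hθm.comp measurable_swap

lemma meas_θ (hθm : Measurable (fun p : ℝ × E => θ p.1 p.2)) (s : ℝ) : Measurable (θ s) :=
  hθm.comp (measurable_const.prodMk measurable_id)

/-- the smoothed measure -/
noncomputable def sm (θ : ℝ → E → E) (p : Measure E) : Measure E := (p.prod rho).map (TT θ)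

lemma sm_apply (hθm : Measurable (fun p : ℝ × E => θ p.1 p.2)) (p : Measure E)
    {A : Set E} (hA : MeasurableSet A) : sm θ p A = ∫⁻ x, rho {s | θ s x ∈ A} ∂p := by
  rw [sm, Measure.map_apply (meas_TT hθm) hA, Measure.prod_apply (meas_TT hθm hA)]
  rfl

lemma sm_inv (hθm : Measurable (fun p : ℝ × E => θ p.1 p.2)) (p : Measure E)
    {A : Set E} (hA : Inv θ A) : sm θ p A = p A := by
  have : TT θ ⁻¹' A = A ×ˢ univ := by
    ext ⟨x, s⟩
    have := Set.ext_iff.1 (hA.2 s) x
    simp only [mem_preimage] at this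
    simp [TT, this]
  rw [sm, Measure.map_apply (meas_TT hθm) hA.1, this, Measure.prod_prod, measure_univ, mul_one]

instance (p : Measure E) [IsFiniteMeasure p] : IsFiniteMeasure (sm θ p) := by
  unfold sm; infer_instance

lemma sm_mono (hθm : Measurable (fun p : ℝ × E => θ p.1 p.2)) {p p' : Measure E} (h : p ≤ p') :
    sm θ p ≤ sm θ p' := by
  rw [Measure.le_iff]
  intro A hA
  rw [sm_apply hθm p hA, sm_apply hθm p' hA]
  exact lintegral_mono' h le_rfl

/-- the key lemma -/
lemma key (hθm : Measurable (fun p : ℝ × E => θ p.1 p.2))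
    (hθ : ∀ s t x, θ s (θ t x) = θ (s + t) x)
    (Q : Measure E) [IsProbabilityMeasure Q] (hQ : ∀ s, Q.map (θ s) = Q)
    (p q : Measure E) [IsFiniteMeasure p] [IsFiniteMeasure q] (hqQ : q ≤ Q)
    (hpq : ∀ A, Inv θ A → p A = q A) (hd : sm θ p ⊓ q = 0) : p = 0 := by
  have hdis : Disjoint (sm θ p) q := by
    rw [disjoint_iff]; exact hd
  obtain ⟨B, hB, hpB, hqB⟩ := Measure.mutuallySingular_of_disjoint hdis
  have hmT := meas_TT hθm
  set φ : E → ℝ≥0∞ := fun x => volume (Prod.mk x ⁻¹' (TT θ ⁻¹' B)) with hφ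
  have hφm : Measurable φ := measurable_measure_prodMk_left (hmT hB)
  have hφinv : ∀ t x, φ (θ t x) = φ x := by
    intro t x
    have e1 : Prod.mk (θ t x) ⁻¹' (TT θ ⁻¹' B) =
        (fun s => s + t) ⁻¹' (Prod.mk x ⁻¹' (TT θ ⁻¹' B)) := by
      ext s
      simp [TT, hθ]
    show volume (Prod.mk (θ t x) ⁻¹' (TT θ ⁻¹' B)) = volume (Prod.mk x ⁻¹' (TT θ ⁻¹' B))
    rw [e1, measure_preimage_add_right]
  set I : Set E := {x | φ x = 0} with hI
  have hImeas : MeasurableSet I := hφm (measurableSet_singleton 0)
  have hIinv : Inv θ I := by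
    refine ⟨hImeas, fun s => ?_⟩
    ext x
    show φ (θ s x) = 0 ↔ φ x = 0
    rw [hφinv]
  have hIcinv : Inv θ Iᶜ := by
    refine ⟨hImeas.compl, fun s => ?_⟩
    rw [preimage_compl, hIinv.2 s]
  have hpI : p Iᶜ = 0 := by
    rw [sm_apply hθm p hB] at hpB
    have hmr : Measurable (fun x => rho {s | θ s x ∈ B}) := measurable_measure_prodMk_left (hmT hB)
    rw [lintegral_eq_zero_iff hmr] at hpB
    have : ∀ᵐ x ∂p, x ∈ I := by
      filter_upwards [hpB] with x hx
      exact zero_of_rho _ hx
    exact this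
  have hqI : q Iᶜ = 0 := by rw [← hpq _ hIcinv]; exact hpI
  have hsmQ : sm θ Q = Q := by
    ext A hA
    rw [sm, Measure.map_apply hmT hA, Measure.prod_apply_symm (hmT hA)]
    have : ∀ s : ℝ, Q ((fun x => (x, s)) ⁻¹' (TT θ ⁻¹' A)) = Q A := by
      intro s
      conv_rhs => rw [← hQ s]
      rw [Measure.map_apply (meas_θ hθm s) hA]
      rfl
    simp [this]
  have hQBI : Q (B ∩ I) = 0 := by
    rw [← hsmQ, sm_apply hθm Q (hB.inter hImeas)]
    have hmr : Measurable (fun x => rho {s | θ s x ∈ B ∩ I}) :=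
      measurable_measure_prodMk_left (hmT (hB.inter hImeas))
    rw [lintegral_eq_zero_iff hmr]
    filter_upwards with y
    show rho {s | θ s y ∈ B ∩ I} = 0
    by_cases hy : y ∈ I
    · apply measure_mono_null (t := {s | θ s y ∈ B}) (fun s hs => hs.1)
      exact rho_zero _ hy
    · have : {s | θ s y ∈ B ∩ I} = ∅ := by
        apply eq_empty_of_forall_notMem
        intro s hs
        apply hy
        have := hs.2
        show φ y = 0
        rw [← hφinv s y]
        exact this
      rw [this]; simp
  have hqBI : q (B ∩ I) = 0 := le_antisymm ((hqQ _).trans hQBI.le) zero_le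
  have hq0 : q univ = 0 := by
    have hsub : (univ : Set E) ⊆ Bᶜ ∪ Iᶜ ∪ (B ∩ I) := by
      intro x _
      by_cases h1 : x ∈ B
      · by_cases h2 : x ∈ I
        · exact Or.inr ⟨h1, h2⟩
        · exact Or.inl (Or.inr h2)
      · exact Or.inl (Or.inl h1)
    apply measure_mono_null hsub
    rw [measure_union_null_iff, measure_union_null_iff]
    exact ⟨⟨hqB, hqI⟩, hqBI⟩
  have hun : Inv θ (univ : Set E) := ⟨MeasurableSet.univ, fun s => rfl⟩
  rw [← Measure.measure_univ_eq_zero, hpq _ hun, hq0]

/-- the transferred part -/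
noncomputable def rr (θ : ℝ → E → E) (p q : Measure E) : Measure E := sm θ p ⊓ q

/-- the partial plan -/
noncomputable def plan (θ : ℝ → E → E) (p q : Measure E) : Measure (E × ℝ) :=
  (p.prod rho).withDensity (fun z => (rr θ p q).rnDeriv (sm θ p) (TT θ z))

instance (p q : Measure E) [IsFiniteMeasure q] : IsFiniteMeasure (rr θ p q) :=
  ⟨lt_of_le_of_lt ((inf_le_right : sm θ p ⊓ q ≤ q) univ) (measure_lt_top q univ)⟩

lemma plan_map (hθm : Measurable (fun p : ℝ × E => θ p.1 p.2))
    (p q : Measure E) [IsFiniteMeasure p] [IsFiniteMeasure q] :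
    (plan θ p q).map (TT θ) = rr θ p q := by
  have hmT := meas_TT hθm
  have hac : rr θ p q ≪ sm θ p := Measure.absolutelyContinuous_of_le inf_le_left
  ext A hA
  rw [Measure.map_apply hmT hA, plan, withDensity_apply _ (hmT hA)]
  have h1 := Measure.withDensity_rnDeriv_eq (rr θ p q) (sm θ p) hac
  conv_rhs => rw [← h1]
  rw [withDensity_apply _ hA]
  conv_rhs => rw [sm, setLIntegral_map hA (Measure.measurable_rnDeriv _ _) hmT]
  rfl

lemma plan_fst_le (hθm : Measurable (fun p : ℝ × E => θ p.1 p.2))
    (p q : Measure E) [IsFiniteMeasure p] [IsFiniteMeasure q] :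
    (plan θ p q).fst ≤ p := by
  have hmT := meas_TT hθm
  have h1 : (rr θ p q).rnDeriv (sm θ p) ≤ᵐ[sm θ p] 1 :=
    Measure.rnDeriv_le_one_of_le inf_le_left
  have h2 : ∀ᵐ z ∂(p.prod rho), (rr θ p q).rnDeriv (sm θ p) (TT θ z) ≤ 1 :=
    ae_of_ae_map hmT.aemeasurable h1
  have h3 : plan θ p q ≤ p.prod rho := by
    rw [plan]
    calc (p.prod rho).withDensity (fun z => (rr θ p q).rnDeriv (sm θ p) (TT θ z))
        ≤ (p.prod rho).withDensity 1 := withDensity_mono h2
      _ = p.prod rho := withDensity_one
  rw [Measure.le_iff]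
  intro A hA
  rw [Measure.fst_apply hA]
  calc plan θ p q (Prod.fst ⁻¹' A) ≤ (p.prod rho) (Prod.fst ⁻¹' A) := h3 _
    _ = p A := by
      have : (Prod.fst ⁻¹' A : Set (E × ℝ)) = A ×ˢ univ := by ext; simp
      rw [this, Measure.prod_prod, measure_univ, mul_one]

lemma plan_fst_inv (hθm : Measurable (fun p : ℝ × E => θ p.1 p.2))
    (p q : Measure E) [IsFiniteMeasure p] [IsFiniteMeasure q] {A : Set E} (hA : Inv θ A) :
    (plan θ p q).fst A = rr θ p q A := by
  have hmT := meas_TT hθm
  rw [← plan_map hθm, Measure.map_apply hmT hA.1, Measure.fst_apply hA.1]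
  congr 1
  ext ⟨x, s⟩
  have := Set.ext_iff.1 (hA.2 s) x
  simp only [mem_preimage] at this
  simp [TT, this]

/-- one step of the greedy construction -/
noncomputable def step (θ : ℝ → E → E) (w : Measure E × Measure E) : Measure E × Measure E :=
  (w.1 - (plan θ w.1 w.2).fst, w.2 - rr θ w.1 w.2)

/-- the greedy sequence -/
noncomputable def gseq (θ : ℝ → E → E) (P Q : Measure E) : ℕ → Measure E × Measure E
  | 0 => (P, Q)
  | n + 1 => step θ (gseq θ P Q n)

lemma finP (P Q : Measure E) [IsFiniteMeasure P] [IsFiniteMeasure Q] (n : ℕ) :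
    IsFiniteMeasure (gseq θ P Q n).1 ∧ IsFiniteMeasure (gseq θ P Q n).2 := by
  induction n with
  | zero => exact ⟨by show IsFiniteMeasure P; infer_instance, by show IsFiniteMeasure Q; infer_instance⟩
  | succ n ih =>
    obtain ⟨h1, h2⟩ := ih
    constructor
    · show IsFiniteMeasure ((gseq θ P Q n).1 - _)
      infer_instance
    · show IsFiniteMeasure ((gseq θ P Q n).2 - _)
      infer_instance

end ShiftAux

open ShiftAux in
/-- **Shift coupling** (Thorisson), randomized form. -/
theorem shift_coupling {E : Type} [MeasurableSpace E] (θ : ℝ → E → E)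
    (hθm : Measurable (fun p : ℝ × E => θ p.1 p.2))
    (hθ : ∀ s t x, θ s (θ t x) = θ (s + t) x)
    (P Q : Measure E) [IsProbabilityMeasure P] [IsProbabilityMeasure Q]
    (hQ : ∀ s, Q.map (θ s) = Q)
    (hPQ : ∀ A, MeasurableSet A → (∀ s, θ s ⁻¹' A = A) → P A = Q A) :
    ∃ h : E × unitInterval → ℝ, Measurable h ∧
      (P.prod (volume : Measure unitInterval)).map (fun z => θ (h z) z.1) = Q := by
  have hmT := meas_TT hθm
  set p : ℕ → Measure E := fun n => (gseq θ P Q n).1 with hp
  set q : ℕ → Measure E := fun n => (gseq θ P Q n).2 with hq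
  have hpf : ∀ n, IsFiniteMeasure (p n) := fun n => (finP (θ := θ) P Q n).1
  have hqf : ∀ n, IsFiniteMeasure (q n) := fun n => (finP (θ := θ) P Q n).2
  set π : ℕ → Measure (E × ℝ) := fun n => plan θ (p n) (q n) with hπ
  set r : ℕ → Measure E := fun n => rr θ (p n) (q n) with hr
  have hps : ∀ n, p (n + 1) + (π n).fst = p n := by
    intro n
    show (p n - (π n).fst) + (π n).fst = p n
    have : IsFiniteMeasure (π n).fst :=
      ⟨lt_of_le_of_lt (plan_fst_le hθm (p n) (q n) univ) (measure_lt_top _ _)⟩
    exact Measure.sub_add_cancel_of_le (plan_fst_le hθm (p n) (q n))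
  have hqs : ∀ n, q (n + 1) + r n = q n := by
    intro n
    show (q n - r n) + r n = q n
    exact Measure.sub_add_cancel_of_le (inf_le_right : sm θ (p n) ⊓ q n ≤ q n)
  have hpsum : ∀ n, p n + ∑ k ∈ Finset.range n, (π k).fst = P := by
    intro n
    induction n with
    | zero => simp [hp, gseq]
    | succ n ih =>
      rw [Finset.sum_range_succ, add_comm (∑ k ∈ Finset.range n, (π k).fst), ← add_assoc, hps, ih]
  have hqsum : ∀ n, q n + ∑ k ∈ Finset.range n, r k = Q := by
    intro n
    induction n with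
    | zero => simp [hq, gseq]
    | succ n ih =>
      rw [Finset.sum_range_succ, add_comm (∑ k ∈ Finset.range n, r k), ← add_assoc, hqs, ih]
  have hinv : ∀ n A, Inv θ A → (π n).fst A = r n A := fun n A hA => plan_fst_inv hθm _ _ hA
  -- the whole plan
  set W : Measure (E × ℝ) := Measure.sum π with hW
  set R : Measure E := Measure.sum r with hR
  have hfst : ∀ A, MeasurableSet A → W.fst A = ∑' n, (π n).fst A := by
    intro A hA
    rw [Measure.fst_apply hA, hW, Measure.sum_apply _ (measurable_fst hA)]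
    exact tsum_congr (fun n => (Measure.fst_apply hA).symm)
  have hRA : ∀ A, MeasurableSet A → R A = ∑' n, r n A := fun A hA => Measure.sum_apply _ hA
  have hpart : ∀ n A, ∑ k ∈ Finset.range n, (π k).fst A ≤ P A := by
    intro n A
    conv_rhs => rw [← hpsum n]
    rw [Measure.add_apply, Measure.finsetSum_apply]
    exact le_add_self
  have hpartR : ∀ n A, ∑ k ∈ Finset.range n, r k A ≤ Q A := by
    intro n A
    conv_rhs => rw [← hqsum n]
    rw [Measure.add_apply, Measure.finsetSum_apply]
    exact le_add_self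
  have hWle : W.fst ≤ P := by
    rw [Measure.le_iff]
    intro A hA
    rw [hfst A hA]
    exact ENNReal.tsum_le_of_sum_range_le (fun n => hpart n A)
  have hRle : R ≤ Q := by
    rw [Measure.le_iff]
    intro A hA
    rw [hRA A hA]
    exact ENNReal.tsum_le_of_sum_range_le (fun n => hpartR n A)
  have hWf : IsFiniteMeasure W.fst := ⟨lt_of_le_of_lt (hWle univ) (measure_lt_top _ _)⟩
  have hRf : IsFiniteMeasure R := ⟨lt_of_le_of_lt (hRle univ) (measure_lt_top _ _)⟩
  set pinf : Measure E := P - W.fst with hpinf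
  set qinf : Measure E := Q - R with hqinf
  have hpi : pinf + W.fst = P := Measure.sub_add_cancel_of_le hWle
  have hqi : qinf + R = Q := Measure.sub_add_cancel_of_le hRle
  have hpin : ∀ n, pinf ≤ p n := by
    intro n
    rw [Measure.le_iff]
    intro A hA
    have e1 : pinf A + W.fst A = P A := by rw [← Measure.add_apply, hpi]
    have e2 : p n A + ∑ k ∈ Finset.range n, (π k).fst A = P A := by
      conv_rhs => rw [← hpsum n]
      rw [Measure.add_apply, Measure.finsetSum_apply]
    have e3 : ∑ k ∈ Finset.range n, (π k).fst A ≤ W.fst A := by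
      rw [hfst A hA]; exact ENNReal.sum_le_tsum _
    have hfin : W.fst A ≠ ⊤ := measure_ne_top _ _
    have e4 : pinf A + W.fst A ≤ p n A + W.fst A := by
      rw [e1, ← e2]; gcongr
    exact (ENNReal.add_le_add_iff_right hfin).1 e4
  have hqin : ∀ n, qinf ≤ q n := by
    intro n
    rw [Measure.le_iff]
    intro A hA
    have e1 : qinf A + R A = Q A := by rw [← Measure.add_apply, hqi]
    have e2 : q n A + ∑ k ∈ Finset.range n, r k A = Q A := by
      conv_rhs => rw [← hqsum n]
      rw [Measure.add_apply, Measure.finsetSum_apply]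
    have e3 : ∑ k ∈ Finset.range n, r k A ≤ R A := by
      rw [hRA A hA]; exact ENNReal.sum_le_tsum _
    have hfin : R A ≠ ⊤ := measure_ne_top _ _
    have e4 : qinf A + R A ≤ q n A + R A := by
      rw [e1, ← e2]; gcongr
    exact (ENNReal.add_le_add_iff_right hfin).1 e4
  have hagree : ∀ A, Inv θ A → pinf A = qinf A := by
    intro A hA
    have e1 : pinf A + W.fst A = P A := by rw [← Measure.add_apply, hpi]
    have e2 : qinf A + R A = Q A := by rw [← Measure.add_apply, hqi]
    have e3 : W.fst A = R A := by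
      rw [hfst A hA.1, hRA A hA.1]
      exact tsum_congr (fun n => hinv n A hA)
    rw [e3, hPQ A hA.1 hA.2, ← e2] at e1
    exact (ENNReal.add_left_inj (measure_ne_top R A)).1 e1
  have hzero : sm θ pinf ⊓ qinf = 0 := by
    rw [← Measure.measure_univ_eq_zero]
    by_contra hne
    set c := (sm θ pinf ⊓ qinf) univ with hc
    have hle : ∀ n, c ≤ r n univ := fun n =>
      (inf_le_inf (sm_mono hθm (hpin n)) (hqin n) : sm θ pinf ⊓ qinf ≤ sm θ (p n) ⊓ q n) univ
    have h1 : ∑' _ : ℕ, c ≤ R univ := by
      rw [hRA univ MeasurableSet.univ]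
      exact ENNReal.tsum_le_tsum hle
    rw [ENNReal.tsum_const_eq_top_of_ne_zero hne] at h1
    exact (measure_ne_top R univ) (top_le_iff.1 h1)
  have hqQ : qinf ≤ Q := by
    have := hqin 0
    simpa [hq, gseq] using this
  have hp0 : pinf = 0 := key hθm hθ Q hQ pinf qinf hqQ hagree hzero
  have hq0 : qinf = 0 := by
    rw [← Measure.measure_univ_eq_zero, ← hagree univ ⟨MeasurableSet.univ, fun s => rfl⟩, hp0]
    rfl
  rw [hp0, zero_add] at hpi
  rw [hq0, zero_add] at hqi
  have hmap : W.map (TT θ) = Q := by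
    rw [← hqi, hW, Measure.map_sum hmT.aemeasurable, hR]
    congr 1
    funext n
    exact plan_map hθm _ _
  have hWF : IsFiniteMeasure W := by
    constructor
    have : W univ = W.fst univ := by rw [Measure.fst_univ]
    rw [this]; exact measure_lt_top _ _
  obtain ⟨f, hf, hfκ⟩ := Kernel.exists_measurable_map_eq_unitInterval W.condKernel
  refine ⟨fun z => f z.1 z.2, hf, ?_⟩
  have hdist : (P.prod (volume : Measure unitInterval)).map (fun z => (z.1, f z.1 z.2)) = W := by
    have hmm : Measurable (fun z : E × unitInterval => (z.1, f z.1 z.2)) :=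
      measurable_fst.prodMk hf
    have h1 := W.disintegrate W.condKernel
    rw [← h1, hpi]
    ext B hB
    rw [Measure.map_apply hmm hB, Measure.prod_apply (hmm hB), Measure.compProd_apply hB]
    apply lintegral_congr
    intro x
    rw [← hfκ x, Measure.map_apply]
    · rfl
    · exact hf.comp measurable_prodMk_left
    · exact measurable_prodMk_left hB
  have hmm : Measurable (fun z : E × unitInterval => (z.1, f z.1 z.2)) := measurable_fst.prodMk hf
  rw [← hmap, ← hdist, Measure.map_map hmT hmm]
  rfl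

end Pool.Agent.R221.FB
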