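import Pool.Agent.R221.FB.Pieces
import Pool.Agent.R221.FB.Shift

/-! The key step: the process agrees with two-sided Brownian motion on invariant sets. -/

namespace Pool.Agent.R221.FB
open MeasureTheory ProbabilityTheory Set Filter
open scoped NNReal ENNReal Topology

lemma Inv.mem {A : Set C2} (hA : Inv A) (s : ℝ) (f : C2) : sh s f ∈ A ↔ f ∈ A := by
  conv_rhs => rw [← hA.2 s]
  rfl

lemma Inv.compl {A : Set C2} (hA : Inv A) : Inv Aᶜ :=
  ⟨hA.1.compl, fun s => by rw [preimage_compl, hA.2 s]⟩

/-- times before `c` at which the past lies in `N` -/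
def badT (N : Set C1) (f : C2) (c : ℝ) : Set ℝ := {t | t < c ∧ past (sh t f) ∈ N}

/-- the invariant event: the past avoids `N` at almost all sufficiently early times -/
def HH (N : Set C1) : Set C2 := {f | ∃ c : ℝ, volume (badT N f c) = 0}

lemma badT_sh (N : Set C1) (f : C2) (c u : ℝ) :
    volume (badT N (sh u f) c) = volume (badT N f (c + u)) := by
  have : badT N (sh u f) c = (fun t => t + u) ⁻¹' (badT N f (c + u)) := by
    ext t
    simp only [badT, Set.mem_ofPred_eq, mem_preimage, sh_sh, add_lt_add_iff_right]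
  rw [this, measure_preimage_add_right]

lemma HH_inv {N : Set C1} (hN : MeasurableSet N) : Inv (HH N) := by
  constructor
  · have h1 : HH N = ⋃ n : ℕ, {f | volume (badT N f (-(n : ℝ))) = 0} := by
      ext f
      simp only [HH, Set.mem_ofPred_eq, mem_iUnion]
      constructor
      · rintro ⟨c, hc⟩
        obtain ⟨n, hn⟩ := exists_nat_ge (-c)
        refine ⟨n, measure_mono_null ?_ hc⟩
        rintro t ⟨ht1, ht2⟩
        exact ⟨by linarith, ht2⟩
      · rintro ⟨n, hn⟩
        exact ⟨_, hn⟩
    rw [h1]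
    refine MeasurableSet.iUnion fun n => ?_
    have h2 : MeasurableSet {z : C2 × ℝ | z.2 < -(n : ℝ) ∧ past (sh z.2 z.1) ∈ N} := by
      refine MeasurableSet.inter (measurableSet_lt measurable_snd measurable_const) ?_
      exact (measurable_past.comp (measurable_sh.comp measurable_swap)) hN
    have h3 := measurable_measure_prodMk_left (ν := (volume : Measure ℝ)) h2
    exact h3 (measurableSet_singleton 0)
  · intro s
    ext f
    simp only [HH, mem_preimage, Set.mem_ofPred_eq, badT_sh]
    constructor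
    · rintro ⟨c, hc⟩; exact ⟨c + s, hc⟩
    · rintro ⟨c, hc⟩; exact ⟨c - s, by rw [sub_add_cancel]; exact hc⟩

/-- If the backward process from some random time is Brownian then `HH N` holds a.s. -/
lemma HH_of_back {Ω : Type*} [MeasurableSpace Ω] {P : Measure Ω} [IsProbabilityMeasure P]
    {W : Measure C1} (hW : IsW W) {Z : Ω → C2} (hZ : Measurable Z) {R : Ω → ℝ}
    (hR : Measurable R) (hlaw : P.map (fun ω => past (sh (R ω) (Z ω))) = W)
    {N : Set C1} (hN : MeasurableSet N) (hWN : W N = 0) : ∀ᵐ ω ∂P, Z ω ∈ HH N := by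
  have hm0 : Measurable fun ω => past (sh (R ω) (Z ω)) :=
    measurable_past.comp (measurable_sh.comp (hR.prodMk hZ))
  have h1 : ∀ r : ℝ≥0, P {ω | past (sh (R ω - r) (Z ω)) ∈ N} = 0 := by
    intro r
    have e1 : ∀ ω, past (sh (R ω - r) (Z ω)) = shiftC r (past (sh (R ω) (Z ω))) := by
      intro ω
      apply Subtype.ext; funext t
      simp only [past, sh, shiftC]
      push_cast
      rw [show R ω - (r : ℝ) + -(t : ℝ) = R ω + -((r : ℝ) + t) by ring,
        show R ω - (r : ℝ) + 0 = R ω + -(r : ℝ) by ring]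
      ring
    have e2 : {ω | past (sh (R ω - r) (Z ω)) ∈ N} =
        (fun ω => past (sh (R ω) (Z ω))) ⁻¹' (shiftC r ⁻¹' N) := by
      ext ω
      simp only [Set.mem_ofPred_eq, mem_preimage, e1]
    rw [e2, ← Measure.map_apply hm0 (measurable_shiftC r hN), hlaw,
      ← Measure.map_apply (measurable_shiftC r) hN, hW.shift r, hWN]
  set Bad : Set (ℝ × Ω) := {z | 0 ≤ z.1 ∧ past (sh (R z.2 - z.1) (Z z.2)) ∈ N} with hBad
  have hBm : MeasurableSet Bad := by
    refine MeasurableSet.inter (measurableSet_le measurable_const measurable_fst) ?_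
    have : Measurable fun z : ℝ × Ω => past (sh (R z.2 - z.1) (Z z.2)) :=
      measurable_past.comp (measurable_sh.comp
        (((hR.comp measurable_snd).sub measurable_fst).prodMk (hZ.comp measurable_snd)))
    exact this hN
  have h2 : ((volume : Measure ℝ).prod P) Bad = 0 := by
    rw [Measure.measure_prod_null hBm]
    refine Eventually.of_forall fun r => ?_
    simp only [Pi.zero_apply]
    rcases le_or_gt 0 r with hr | hr
    · refine measure_mono_null ?_ (h1 ⟨r, hr⟩)
      rintro ω ⟨_, hω⟩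
      exact hω
    · have : (Prod.mk r ⁻¹' Bad : Set Ω) = ∅ := by
        ext ω
        simp only [mem_preimage, hBad, Set.mem_ofPred_eq, mem_empty_iff_false, iff_false]
        rintro ⟨h, _⟩
        exact absurd h (not_le.2 hr)
      rw [this, measure_empty]
  have h3 : (P.prod (volume : Measure ℝ)) (Prod.swap ⁻¹' Bad) = 0 := by
    rw [← Measure.map_apply measurable_swap hBm, Measure.prod_swap, h2]
  rw [Measure.measure_prod_null (measurable_swap hBm)] at h3
  filter_upwards [h3] with ω hω
  refine ⟨R ω, ?_⟩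
  have h4 : badT N (Z ω) (R ω) ⊆ (fun t => R ω - t) ⁻¹' (Prod.mk ω ⁻¹' (Prod.swap ⁻¹' Bad)) := by
    rintro t ⟨ht1, ht2⟩
    refine ⟨by simp only [Prod.swap_prod_mk]; linarith, ?_⟩
    simp only [Prod.swap_prod_mk, sub_sub_cancel]
    exact ht2
  have h5 : MeasurePreserving (fun t : ℝ => R ω - t) volume volume :=
    Measure.measurePreserving_sub_left volume (R ω)
  refine measure_mono_null h4 ?_
  rw [h5.measure_preimage (measurable_prodMk_left (measurable_swap hBm)).nullMeasurableSet]
  exact hω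

section
variable {Ω : Type*} {mΩ : MeasurableSpace Ω} {P : Measure Ω} (D : Pieces mΩ P)

lemma Zk_sh0 (k : ℤ) (ω : Ω) : sh 0 (Zk D k ω) = Zk D k ω := by
  unfold Zk
  rw [sh_sh, zero_add]

lemma law_Zk {W : Measure C1} (hW : IsW W) (k : ℤ) :
    P.map (Zk D k) = ((P.map (fun ω => past (Zk D k ω))).prod W).map glue := by
  have hmp : Measurable fun ω => past (Zk D k ω) := measurable_past.comp (measurable_Zk D k)
  have hmf : Measurable fun ω => fut (Zk D k ω) := measurable_fut.comp (measurable_Zk D k)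
  rw [← step0 D hW k, Measure.map_map measurable_glue (hmp.prodMk hmf)]
  congr 1
  funext ω
  simp only [Function.comp_apply, glue_past_fut, Zk_sh0]

lemma G_le_one {W : Measure C1} (hW : IsW W) (A : Set C2) (w : C1) : G W A w ≤ 1 := by
  have := hW.prob
  exact prob_le_one

lemma null_G {W : Measure C1} (hW : IsW W) {A : Set C2} (hA : Inv A) (hQA : Q2 W A = 1) :
    W {w | G W A w ≠ 1} = 0 := by
  have := hW.prob
  have h1 : ∫⁻ w, G W A w ∂W = 1 := by
    rw [lintegral_G hW hA.1, ← Measure.map_apply measurable_glue hA.1]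
    exact hQA
  have h2 : ∫⁻ w, (1 - G W A w) ∂W = 0 := by
    have h3 : ∫⁻ w, (1 - G W A w) + G W A w ∂W = 1 := by
      have : ∀ w, (1 - G W A w) + G W A w = 1 := fun w => tsub_add_cancel_of_le (G_le_one hW A w)
      simp only [this]
      simp
    rw [lintegral_add_right _ (measurable_G hW hA.1), h1] at h3
    have h4 : ∫⁻ w, (1 - G W A w) ∂W + 1 = 0 + 1 := by rw [h3, zero_add]
    exact (ENNReal.add_left_inj (by norm_num)).1 h4
  have hm1G : Measurable fun w => 1 - G W A w := measurable_const.sub (measurable_G hW hA.1)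
  rw [lintegral_eq_zero_iff hm1G] at h2
  refine measure_mono_null ?_ (ae_iff.1 h2)
  intro w hw hw'
  apply hw
  simp only [Pi.zero_apply] at hw'
  exact le_antisymm (G_le_one hW A w) (tsub_eq_zero_iff_le.1 hw')

/-- The key step. -/
theorem key_one {W : Measure C1} (hW : IsW W)
    (hback : ∀ N : Set C1, MeasurableSet N → W N = 0 → ∀ᵐ ω ∂P, Yp D ω ∈ HH N)
    {A : Set C2} (hA : Inv A) (hQA : Q2 W A = 1) : P {ω | Yp D ω ∈ A} = 1 := by
  have hprob := prob_of D
  have := hW.prob
  have hGm := measurable_G hW hA.1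
  set N : Set C1 := {w | G W A w ≠ 1} with hNdef
  have hNm : MeasurableSet N := (hGm (measurableSet_singleton 1)).compl
  have hN0 : W N = 0 := null_G hW hA hQA
  have hH := hback N hNm hN0
  set α := P {ω | Yp D ω ∈ A} with hα
  -- the averaged defects
  set Fk : ℕ → Ω → ℝ≥0∞ := fun n ω =>
    ∫⁻ s : ℝ in Icc 0 1, (1 - G W A (past (sh s (Zk D (-(n : ℤ)) ω)))) with hFk
  have hjm : ∀ n : ℕ, Measurable fun z : Ω × ℝ =>
      (1 - G W A (past (sh z.2 (Zk D (-(n : ℤ)) z.1)))) := by
    intro n
    have h1 : Measurable fun z : Ω × ℝ => (z.2, Zk D (-(n : ℤ)) z.1) :=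
      measurable_snd.prodMk ((measurable_Zk D _).comp measurable_fst)
    have h2 : Measurable fun z : Ω × ℝ => sh z.2 (Zk D (-(n : ℤ)) z.1) := measurable_sh.comp h1
    exact measurable_const.sub (hGm.comp (measurable_past.comp h2))
  have hFm : ∀ n, Measurable (Fk n) := fun n => (hjm n).lintegral_prod_right'
  have hfix : ∀ (n : ℕ) (s : ℝ), 0 ≤ s →
      ∫⁻ ω, (1 - G W A (past (sh s (Zk D (-(n : ℤ)) ω)))) ∂P = 1 - α := by
    intro n s hs
    have hZm := measurable_Zk D (-(n : ℤ))
    have hmp : Measurable fun ω => past (Zk D (-(n : ℤ)) ω) := measurable_past.comp hZm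
    have := Measure.isProbabilityMeasure_map (μ := P) hmp.aemeasurable
    have hgm : Measurable fun f : C2 => G W A (past (sh s f)) :=
      hGm.comp (measurable_past.comp (measurable_sh_s s))
    have h1 : ∫⁻ ω, G W A (past (sh s (Zk D (-(n : ℤ)) ω))) ∂P = α := by
      have h2 : ∫⁻ f, G W A (past (sh s f)) ∂(((P.map (fun ω => past (Zk D (-(n : ℤ)) ω))).prod W).map
          glue) = (((P.map (fun ω => past (Zk D (-(n : ℤ)) ω))).prod W).map glue) A :=
        lintegral_G_past hW hA ⟨s, hs⟩
      rw [← law_Zk D hW] at h2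
      rw [lintegral_map hgm hZm, Measure.map_apply hZm hA.1] at h2
      rw [h2, hα]
      congr 1
      ext ω
      simp only [mem_preimage, Set.mem_ofPred_eq]
      exact hA.mem _ _
    have h3 : ∫⁻ ω, (1 - G W A (past (sh s (Zk D (-(n : ℤ)) ω)))) ∂P + α = 1 := by
      have hgz : Measurable fun ω => G W A (past (sh s (Zk D (-(n : ℤ)) ω))) := hgm.comp hZm
      rw [← h1, ← lintegral_add_right _ hgz]
      have : ∀ ω, (1 - G W A (past (sh s (Zk D (-(n : ℤ)) ω)))) +
          G W A (past (sh s (Zk D (-(n : ℤ)) ω))) = 1 := fun ω =>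
        tsub_add_cancel_of_le (G_le_one hW A _)
      simp only [this]
      simp
    have hαf : α ≠ ⊤ := measure_ne_top _ _
    exact ENNReal.eq_sub_of_add_eq hαf h3
  have hE : ∀ n, ∫⁻ ω, Fk n ω ∂P = 1 - α := by
    intro n
    rw [hFk]
    simp only
    rw [lintegral_lintegral_swap (hjm n).aemeasurable]
    have : ∫⁻ s : ℝ in Icc 0 1, (∫⁻ ω, (1 - G W A (past (sh s (Zk D (-(n : ℤ)) ω)))) ∂P) =
        ∫⁻ s : ℝ in Icc 0 1, (1 - α) := by
      refine setLIntegral_congr_fun measurableSet_Icc fun s hs => ?_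
      exact hfix n s hs.1
    rw [this]
    simp
  have hlim : Tendsto (fun n => ∫⁻ ω, Fk n ω ∂P) atTop (𝓝 (∫⁻ _, 0 ∂P)) := by
    refine tendsto_lintegral_of_dominated_convergence (fun _ => 1) hFm ?_ ?_ ?_
    · intro n
      refine Eventually.of_forall fun ω => ?_
      calc Fk n ω ≤ ∫⁻ _ : ℝ in Icc 0 1, 1 := lintegral_mono fun s => tsub_le_self
        _ = 1 := by simp
    · simp
    · filter_upwards [hH, good_ae D] with ω hω hg
      obtain ⟨c, hc⟩ := hω
      obtain ⟨j, hj⟩ := hg.2.2 (c - 2)
      refine tendsto_const_nhds.congr' ?_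
      filter_upwards [eventually_ge_atTop (-j).toNat] with n hn
      have h1 : D.S (-(n : ℤ)) ω ≤ c - 2 := (S_mono D ω (by omega : -(n : ℤ) ≤ j)).trans hj
      symm
      rw [hFk]
      simp only
      rw [lintegral_eq_zero_iff']
      · rw [Filter.EventuallyEq, ae_restrict_iff' measurableSet_Icc, ae_iff]
        have h2 : {s : ℝ | ¬ (s ∈ Icc (0:ℝ) 1 →
            (fun s => (1 - G W A (past (sh s (Zk D (-(n : ℤ)) ω))))) s = (0 : ℝ → ℝ≥0∞) s)} ⊆
            (fun s => s + D.S (-(n : ℤ)) ω) ⁻¹' (badT N (Yp D ω) c) := by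
          intro s hs
          simp only [Set.mem_ofPred_eq, Pi.zero_apply, Classical.not_imp] at hs
          obtain ⟨hs1, hs2⟩ := hs
          refine ⟨by have := hs1.2; linarith, ?_⟩
          rw [hNdef]
          intro h3
          apply hs2
          rw [Zk, sh_sh, h3, tsub_self]
        refine measure_mono_null h2 ?_
        rw [measure_preimage_add_right]
        exact hc
      · exact (Measurable.comp (hjm n) (measurable_prodMk_left (x := ω))).aemeasurable
  simp only [hE] at hlim
  have h1 := tendsto_nhds_unique hlim tendsto_const_nhds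
  rw [lintegral_zero] at h1
  have h2 : 1 ≤ α := tsub_eq_zero_iff_le.1 h1.symm
  exact le_antisymm prob_le_one h2

end

end Pool.Agent.R221.FB
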