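import Pool.Agent.R221.FB.Key

/-! Assembly. -/

namespace Pool.Agent.R221.FB
open MeasureTheory ProbabilityTheory Set Filter
open scoped NNReal ENNReal Topology

universe u v

/-- path of a process with continuous paths -/
def Xp {Ω : Type*} (X : ℝ → Ω → ℝ) (hc : ∀ ω, Continuous fun t => X t ω) (ω : Ω) : C2 :=
  ⟨fun t => X t ω, hc ω⟩

lemma measurable_Xp {Ω : Type*} {mΩ : MeasurableSpace Ω} {X : ℝ → Ω → ℝ}
    (hc : ∀ ω, Continuous fun t => X t ω) (hX : ∀ t, Measurable (X t)) : Measurable (Xp X hc) :=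
  measurable_into_C2 hX

lemma map_C2_ext {Ω Ω' : Type*} {mΩ : MeasurableSpace Ω} {mΩ' : MeasurableSpace Ω'}
    {P : Measure Ω} {P' : Measure Ω'} {g : Ω → C2} {g' : Ω' → C2} (hg : Measurable g)
    (hg' : Measurable g')
    (h : P.map (fun ω (t : ℝ) => (g ω).1 t) = P'.map (fun ω (t : ℝ) => (g' ω).1 t)) :
    P.map g = P'.map g' := by
  ext A hA
  obtain ⟨A', hA', rfl⟩ := hA
  have hm : Measurable (fun ω (t : ℝ) => (g ω).1 t) := measurable_subtype_coe.comp hg
  have hm' : Measurable (fun ω (t : ℝ) => (g' ω).1 t) := measurable_subtype_coe.comp hg'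
  have h1 : (P.map (fun ω (t : ℝ) => (g ω).1 t)) A' = (P'.map (fun ω (t : ℝ) => (g' ω).1 t)) A' := by
    rw [h]
  rw [Measure.map_apply hm hA', Measure.map_apply hm' hA'] at h1
  rw [Measure.map_apply hg (measurable_subtype_coe hA'),
    Measure.map_apply hg' (measurable_subtype_coe hA')]
  exact h1

/-- the law of a Brownian piece -/
noncomputable def WW {Ω : Type*} {mΩ : MeasurableSpace Ω} {P : Measure Ω} (D : Pieces mΩ P) :
    Measure C1 := P.map (fun ω => (⟨fun t => D.B 0 t ω, (D.bm 0).cont ω⟩ : C1))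

lemma isW_WW {Ω : Type*} {mΩ : MeasurableSpace Ω} {P : Measure Ω} (D : Pieces mΩ P) :
    IsW (WW D) :=
  isW_map (D.bm 0).brownian.toIsPreBrownianReal (measurable_path _ (measurable_B D 0))
    fun _ => Eventually.of_forall fun _ => rfl

/-- The backward hypothesis for a backward Brownian motion. -/
lemma back_of_BBM {Ω : Type*} {mΩ : MeasurableSpace Ω} {P : Measure Ω} [IsProbabilityMeasure P]
    {X : ℝ → Ω → ℝ} (hX : ∀ t, Measurable (X t)) (hc : ∀ ω, Continuous fun t => X t ω)
    (hB : IsBBM P X) {W : Measure C1} (hW : IsW W) {N : Set C1} (hN : MeasurableSet N)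
    (hN0 : W N = 0) : ∀ᵐ ω ∂P, Xp X hc ω ∈ HH N := by
  obtain ⟨S, hS, -, hb⟩ := hB
  have hXm := measurable_Xp hc hX
  have hR : Measurable fun ω => - S 0 ω := (hS 0).neg
  refine HH_of_back hW hXm hR ?_ hN hN0
  refine IsW.unique ?_ hW
  refine isW_map (hb 0).toIsPreBrownianReal
    (measurable_past.comp (measurable_sh.comp (hR.prodMk hXm))) fun t => ?_
  refine Eventually.of_forall fun ω => ?_
  simp only [past, sh, Xp]
  rw [show - S 0 ω + -(t : ℝ) = -(S 0 ω + t) by ring, add_zero]
  ring

/-- time reversal of a path -/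
def rev (f : C2) : C2 := ⟨fun t => f.1 (-t), f.2.comp continuous_neg⟩

lemma measurable_rev : Measurable rev := measurable_into_C2 fun _ => measurable_ev2 _

/-- The backward hypothesis when the time reversal is decomposable. -/
lemma back_of_dec {Ω : Type u} {mΩ : MeasurableSpace Ω} {P : Measure Ω} [IsProbabilityMeasure P]
    {X : ℝ → Ω → ℝ} (hX : ∀ t, Measurable (X t)) (hc : ∀ ω, Continuous fun t => X t ω)
    (hD : Decomposable.{u, v} P (fun t => X (-t))) {W : Measure C1} (hW : IsW W) {N : Set C1}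
    (hN : MeasurableSet N) (hN0 : W N = 0) : ∀ᵐ ω ∂P, Xp X hc ω ∈ HH N := by
  obtain ⟨U, hU, Ω', mΩ', P', D, hlaw⟩ := hD
  have hprob := prob_of D
  have := hW.prob
  have hXm := measurable_Xp hc hX
  have hInv := HH_inv hN
  -- the reversed path on the other space
  have hY : ∀ᵐ ω ∂P', rev (Yp D ω) ∈ HH N := by
    refine HH_of_back hW (measurable_rev.comp (measurable_Yp D))
      (measurable_const (a := (0 : ℝ))) ?_ hN hN0
    have h1 := step0 D hW 0
    have hmp : Measurable fun ω => past (Zk D 0 ω) := measurable_past.comp (measurable_Zk D 0)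
    have hmf : Measurable fun ω => fut (Zk D 0 ω) := measurable_fut.comp (measurable_Zk D 0)
    have := Measure.isProbabilityMeasure_map (μ := P') hmp.aemeasurable
    have h2 : P'.map (fun ω => fut (Zk D 0 ω)) = W := by
      have h3 : (P'.map (fun ω => (past (Zk D 0 ω), fut (Zk D 0 ω)))).map Prod.snd =
        ((P'.map (fun ω => past (Zk D 0 ω))).prod W).map Prod.snd := by rw [h1]
      rw [Measure.map_map measurable_snd (hmp.prodMk hmf), Measure.map_snd_prod] at h3
      rw [measure_univ, one_smul] at h3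
      exact h3
    conv_rhs => rw [← h2]
    congr 1
    funext ω
    apply Subtype.ext; funext t
    rw [fut_Zk, D.S_zero]
    simp [past, sh, rev, Yp]
  -- transfer
  have hshm : Measurable fun ω => sh (-U ω) (Xp X hc ω) := measurable_sh.comp (hU.neg.prodMk hXm)
  have hlaw2 : P.map (fun ω => sh (-U ω) (Xp X hc ω)) = P'.map (fun ω => rev (Yp D ω)) := by
    have e1 : (fun ω => sh (-U ω) (Xp X hc ω)) = rev ∘ (fun ω =>
        (⟨fun t => X (-(U ω + t)) ω - X (-(U ω)) ω, by
          have := hc ω; fun_prop⟩ : C2)) := by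
      funext ω
      apply Subtype.ext; funext t
      simp only [sh, Xp, rev, Function.comp_apply]
      rw [show -(U ω + -t) = -U ω + t by ring]
    have hm1 : Measurable (fun ω =>
        (⟨fun t => X (-(U ω + t)) ω - X (-(U ω)) ω, by
          have := hc ω; fun_prop⟩ : C2)) := by
      refine measurable_into_C2 fun t => ?_
      exact (comp_eval2 (g := Xp X hc) hXm (hU.add_const t).neg).sub
        (comp_eval2 (g := Xp X hc) hXm hU.neg)
    rw [e1, ← Measure.map_map measurable_rev hm1,
      show (fun ω => rev (Yp D ω)) = rev ∘ (Yp D) from rfl,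
      ← Measure.map_map measurable_rev (measurable_Yp D)]
    congr 1
    exact map_C2_ext hm1 (measurable_Yp D) hlaw
  have h1 : ∀ᵐ f ∂(P'.map (fun ω => rev (Yp D ω))), f ∈ HH N := by
    exact (ae_map_iff (p := fun f => f ∈ HH N)
      (measurable_rev.comp (measurable_Yp D)).aemeasurable hInv.1).2 hY
  rw [← hlaw2] at h1
  replace h1 := (ae_map_iff (p := fun f => f ∈ HH N) hshm.aemeasurable hInv.1).1 h1
  filter_upwards [h1] with ω hω
  exact (hInv.mem _ _).1 hω

/-- Existence of the randomized time. -/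
theorem exists_time {Ω : Type u} {mΩ : MeasurableSpace Ω} {P : Measure Ω} [IsProbabilityMeasure P]
    {X : ℝ → Ω → ℝ} (hX : ∀ t, Measurable (X t)) (hc : ∀ ω, Continuous fun t => X t ω)
    (hD : Decomposable.{u, v} P X)
    (hback : ∀ W : Measure C1, IsW W → ∀ N : Set C1, MeasurableSet N → W N = 0 →
      ∀ᵐ ω ∂P, Xp X hc ω ∈ HH N) :
    ∃ W : Measure C1, IsW W ∧ ∃ h : C2 × unitInterval → ℝ, Measurable h ∧
      ((P.map (fun ω => sh 0 (Xp X hc ω))).prod (volume : Measure unitInterval)).map
        (fun z => sh (h z) z.1) = Q2 W := by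
  obtain ⟨U, hU, Ω', mΩ', P', D, hlaw⟩ := hD
  have hprob := prob_of D
  have hW := isW_WW D
  have := hW.prob
  have := Q2_prob hW
  have hXm := measurable_Xp hc hX
  have hshU : Measurable fun ω => sh (U ω) (Xp X hc ω) := measurable_sh.comp (hU.prodMk hXm)
  have hsh0 : Measurable fun ω => sh 0 (Xp X hc ω) := (measurable_sh_s 0).comp hXm
  have hlaw2 : P.map (fun ω => sh (U ω) (Xp X hc ω)) = P'.map (Yp D) :=
    map_C2_ext hshU (measurable_Yp D) hlaw
  refine ⟨WW D, hW, ?_⟩
  have hbackY : ∀ N : Set C1, MeasurableSet N → (WW D) N = 0 → ∀ᵐ ω ∂P', Yp D ω ∈ HH N := by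
    intro N hN hN0
    have hInv := HH_inv hN
    have h1 : ∀ᵐ ω ∂P, sh (U ω) (Xp X hc ω) ∈ HH N := by
      filter_upwards [hback _ hW N hN hN0] with ω hω
      exact (hInv.mem _ _).2 hω
    replace h1 := (ae_map_iff (p := fun f => f ∈ HH N) hshU.aemeasurable hInv.1).2 h1
    rw [hlaw2] at h1
    exact (ae_map_iff (p := fun f => f ∈ HH N) (measurable_Yp D).aemeasurable hInv.1).1 h1
  have hone : ∀ A : Set C2, Inv A → Q2 (WW D) A = 1 → (P.map (fun ω => sh 0 (Xp X hc ω))) A = 1 := by
    intro A hA hQA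
    have h1 := key_one D hW hbackY hA hQA
    have h2 : (P.map (fun ω => sh (U ω) (Xp X hc ω))) A = 1 := by
      rw [hlaw2, Measure.map_apply (measurable_Yp D) hA.1]
      exact h1
    rw [Measure.map_apply hshU hA.1] at h2
    rw [Measure.map_apply hsh0 hA.1, ← h2]
    congr 1
    ext ω
    simp only [mem_preimage]
    rw [hA.mem, hA.mem]
  have hPX := Measure.isProbabilityMeasure_map (μ := P) hsh0.aemeasurable
  refine shift_coupling sh measurable_sh (fun s t x => sh_sh s t x) _ (Q2 (WW D))
    (fun s => Q2_sh hW s) ?_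
  intro A hAm hAi
  have hA : Inv A := ⟨hAm, hAi⟩
  rcases erg hW hA with h0 | h1
  · rw [h0]
    have h2 : Q2 (WW D) Aᶜ = 1 := by
      rw [prob_compl_eq_one_iff hAm]; exact h0
    have h3 := hone _ hA.compl h2
    rw [prob_compl_eq_one_iff hAm] at h3
    exact h3
  · rw [h1]
    exact hone A hA h1

/-- From the randomized time to the two-sided Brownian motion. -/
theorem to_2BM {Ω : Type*} {mΩ : MeasurableSpace Ω} {P : Measure Ω} [IsProbabilityMeasure P]
    {X : ℝ → Ω → ℝ} (hX : ∀ t, Measurable (X t)) (hc : ∀ ω, Continuous fun t => X t ω)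
    {W : Measure C1} (hW : IsW W) {ρ : Measure (C2 × unitInterval)} {h : C2 × unitInterval → ℝ}
    (hh : Measurable h) (hρ : ρ.map (fun z => sh (h z) z.1) = Q2 W)
    {V : Ω → unitInterval} (hV : Measurable V)
    (hlaw : P.map (fun ω => (sh 0 (Xp X hc ω), V ω)) = ρ) : Is2BM P X := by
  have := hW.prob
  have hXm := measurable_Xp hc hX
  have hsh0 : Measurable fun ω => sh 0 (Xp X hc ω) := (measurable_sh_s 0).comp hXm
  have hpair : Measurable fun ω => (sh 0 (Xp X hc ω), V ω) := hsh0.prodMk hV
  set S : Ω → ℝ := fun ω => h (sh 0 (Xp X hc ω), V ω) with hS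
  have hSm : Measurable S := hh.comp hpair
  set Z : Ω → C2 := fun ω => sh (S ω) (Xp X hc ω) with hZ
  have hZm : Measurable Z := measurable_sh.comp (hSm.prodMk hXm)
  have hθm : Measurable fun z : C2 × unitInterval => sh (h z) z.1 :=
    measurable_sh.comp (hh.prodMk measurable_fst)
  have hlawZ : P.map Z = Q2 W := by
    rw [← hρ, ← hlaw, Measure.map_map hθm hpair]
    congr 1
    funext ω
    simp only [Function.comp_apply, hZ, hS, sh_sh, add_zero]
  have hpm : Measurable fun ω => past (Z ω) := measurable_past.comp hZm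
  have hfm : Measurable fun ω => fut (Z ω) := measurable_fut.comp hZm
  have hjoint : P.map (fun ω => (past (Z ω), fut (Z ω))) = W.prod W := by
    have h1 := glue_law (μ := W) hW hW.zero
    rw [← h1]
    change _ = (Q2 W).map _
    rw [← hlawZ, Measure.map_map (measurable_past.prodMk measurable_fut) hZm]
    rfl
  have hp : P.map (fun ω => past (Z ω)) = W := by
    have h3 : (P.map (fun ω => (past (Z ω), fut (Z ω)))).map Prod.fst =
      (W.prod W).map Prod.fst := by rw [hjoint]
    rw [Measure.map_map measurable_fst (hpm.prodMk hfm), Measure.map_fst_prod] at h3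
    rw [measure_univ, one_smul] at h3
    exact h3
  have hf : P.map (fun ω => fut (Z ω)) = W := by
    have h3 : (P.map (fun ω => (past (Z ω), fut (Z ω)))).map Prod.snd =
      (W.prod W).map Prod.snd := by rw [hjoint]
    rw [Measure.map_map measurable_snd (hpm.prodMk hfm), Measure.map_snd_prod] at h3
    rw [measure_univ, one_smul] at h3
    exact h3
  have hind : IndepFun (fun ω => past (Z ω)) (fun ω => fut (Z ω)) P := by
    rw [indepFun_iff_map_prod_eq_prod_map_map hpm.aemeasurable hfm.aemeasurable, hjoint, hp, hf]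
  have ef : ∀ (t : ℝ≥0) (ω : Ω), (fut (Z ω)).1 t = X (S ω + t) ω - X (S ω) ω := by
    intro t ω
    simp [fut, hZ, sh, Xp]
  have ep : ∀ (t : ℝ≥0) (ω : Ω), (past (Z ω)).1 t = X (S ω - t) ω - X (S ω) ω := by
    intro t ω
    simp [past, hZ, sh, Xp, sub_eq_add_neg]
  refine ⟨S, hSm, ?_, ?_, ?_⟩
  · have h1 : IsPreBrownianReal (fun (t : ℝ≥0) ω => (fut (Z ω)).1 t) P :=
      IsW.of_map hfm (by rw [hf]; exact hW)
    simp only [ef] at h1
    exact { toIsPreBrownianReal := h1
            cont := Eventually.of_forall fun ω => by have := hc ω; fun_prop }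
  · have h1 : IsPreBrownianReal (fun (t : ℝ≥0) ω => (past (Z ω)).1 t) P :=
      IsW.of_map hpm (by rw [hp]; exact hW)
    simp only [ep] at h1
    exact { toIsPreBrownianReal := h1
            cont := Eventually.of_forall fun ω => by have := hc ω; fun_prop }
  · have h1 := hind.symm.comp (φ := (Subtype.val : C1 → ℝ≥0 → ℝ))
      (ψ := (Subtype.val : C1 → ℝ≥0 → ℝ)) measurable_subtype_coe measurable_subtype_coe
    have e1 : (Subtype.val : C1 → ℝ≥0 → ℝ) ∘ (fun ω => fut (Z ω)) =
        fun ω (t : ℝ≥0) => X (S ω + t) ω - X (S ω) ω := by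
      funext ω t; exact ef t ω
    have e2 : (Subtype.val : C1 → ℝ≥0 → ℝ) ∘ (fun ω => past (Z ω)) =
        fun ω (t : ℝ≥0) => X (S ω - t) ω - X (S ω) ω := by
      funext ω t; exact ep t ω
    rw [e1, e2] at h1
    exact h1

/-- Both versions of the conclusion from the backward hypothesis. -/
theorem both {Ω : Type u} {mΩ : MeasurableSpace Ω} {P : Measure Ω} [IsProbabilityMeasure P]
    {X : ℝ → Ω → ℝ} (hX : ∀ t, Measurable (X t)) (hc : ∀ ω, Continuous fun t => X t ω)
    (hD : Decomposable.{u, v} P X)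
    (hback : ∀ W : Measure C1, IsW W → ∀ N : Set C1, MeasurableSet N → W N = 0 →
      ∀ᵐ ω ∂P, Xp X hc ω ∈ HH N) :
    Is2BM (P.prod (volume : Measure unitInterval)) (fun t z => X t z.1) ∧
    ∀ V : Ω → unitInterval, Measurable V → P.map V = volume →
      IndepFun (fun ω (t : ℝ) => X t ω) V P → Is2BM P X := by
  obtain ⟨W, hW, h, hh, hρ⟩ := exists_time hX hc hD hback
  have hXm := measurable_Xp hc hX
  have hsh0 : Measurable fun ω => sh 0 (Xp X hc ω) := (measurable_sh_s 0).comp hXm
  constructor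
  · refine to_2BM (P := P.prod (volume : Measure unitInterval)) (X := fun t z => X t z.1)
      (fun t => (hX t).comp measurable_fst) (fun z => hc z.1) hW hh hρ measurable_snd ?_
    have := Measure.map_prod_map P (volume : Measure unitInterval) hsh0 measurable_id
    rw [Measure.map_id] at this
    rw [this]
    rfl
  · intro V hV hVu hind
    refine to_2BM hX hc hW hh hρ hV ?_
    have hind2 : IndepFun (fun ω => sh 0 (Xp X hc ω)) V P := by
      rw [IndepFun_iff_Indep] at hind ⊢
      refine indep_of_indep_of_le_left hind ?_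
      rw [← measurable_iff_comap_le]
      refine (measurable_sh_s 0).comp ?_
      refine @measurable_into_C2 _ (MeasurableSpace.comap (fun ω (t : ℝ) => X t ω)
        MeasurableSpace.pi) _ fun t => ?_
      exact (measurable_pi_apply t).comp (comap_measurable (fun ω (t : ℝ) => X t ω))
    rw [(indepFun_iff_map_prod_eq_prod_map_map hsh0.aemeasurable hV.aemeasurable).1 hind2, hVu]

end Pool.Agent.R221.FB
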