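import Pool.Agent.R221.FB.Stop
import Pool.Agent.R221.FB.Erg

/-! The decomposable construction and its first consequence. -/

namespace Pool.Agent.R221.FB
open MeasureTheory ProbabilityTheory Set Filter
open scoped NNReal ENNReal Topology

/-- concatenate a stopped piece and a later path -/
def catF (z : (C1 × ℝ≥0) × C1) : C1 :=
  ⟨fun t => z.1.1.1 t + z.2.1 (t - z.1.2), by
    have h1 := z.1.1.2; have h2 := z.2.2
    exact h1.add (h2.comp (by fun_prop))⟩

/-- concatenate (backwards) a stopped piece and an earlier past -/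
def catP (z : (C1 × ℝ≥0) × C1) : C1 :=
  ⟨fun t => z.1.1.1 (z.1.2 - t) - z.1.1.1 z.1.2 + z.2.1 (t - z.1.2), by
    have h1 := z.1.1.2; have h2 := z.2.2
    exact ((h1.comp (by fun_prop)).sub continuous_const).add (h2.comp (by fun_prop))⟩

lemma measurable_catF : Measurable catF := by
  refine measurable_into_C1 fun t => ?_
  refine ((measurable_ev1 t).comp (measurable_fst.comp measurable_fst)).add ?_
  exact comp_eval1 measurable_snd (measurable_const.sub (measurable_snd.comp measurable_fst))

lemma measurable_catP : Measurable catP := by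
  refine measurable_into_C1 fun t => ?_
  have h1 : Measurable fun z : (C1 × ℝ≥0) × C1 => z.1.1 := measurable_fst.comp measurable_fst
  have h2 : Measurable fun z : (C1 × ℝ≥0) × C1 => z.1.2 := measurable_snd.comp measurable_fst
  exact ((comp_eval1 h1 (h2.sub measurable_const)).sub (comp_eval1 h1 h2)).add
    (comp_eval1 measurable_snd (measurable_const.sub h2))

/-- the zero path -/
def zp : C1 := ⟨fun _ => 0, continuous_const⟩

section
variable {Ω : Type*} {mΩ : MeasurableSpace Ω} {P : Measure Ω} (D : Pieces mΩ P)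

/-- the pieces as random elements -/
def pc (k : ℤ) (ω : Ω) : C1 × ℝ≥0 := (stp (D.B k) (D.bm k).cont (D.T k) ω, D.T k ω)

/-- the path of the first `n` pieces from `k` on, stopped -/
def BF : ℕ → ℤ → Ω → C1 × ℝ≥0
  | 0, _, _ => (zp, 0)
  | n + 1, k, ω => (catF (pc D k ω, (BF n (k + 1) ω).1), D.T k ω + (BF n (k + 1) ω).2)

/-- the backward path of the last `n` pieces before `k`, stopped -/
def PW : ℕ → ℤ → Ω → C1 × ℝ≥0
  | 0, _, _ => (zp, 0)
  | n + 1, k, ω => (catP (pc D (k - 1) ω, (PW n (k - 1) ω).1),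
      D.T (k - 1) ω + (PW n (k - 1) ω).2)

/-- the sigma-algebra of a piece -/
def ms (k : ℤ) : MeasurableSpace Ω :=
  MeasurableSpace.comap (fun ω => ((fun t : ℝ≥0 => D.B k (min t (D.T k ω)) ω), D.T k ω))
    inferInstance

lemma measurable_T (k : ℤ) : Measurable (D.T k) :=
  measurable_of_Iic fun s => (D.F k).le s _ (D.stop k s)

lemma measurable_B (k : ℤ) (t : ℝ≥0) : Measurable (D.B k t) :=
  ((D.bm k).adapted t).mono ((D.F k).le t) le_rfl

lemma measurable_pc_ms (k : ℤ) : Measurable[ms D k] (pc D k) := by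
  have h : Measurable[ms D k]
      (fun ω => ((fun t : ℝ≥0 => D.B k (min t (D.T k ω)) ω), D.T k ω)) := comap_measurable _
  refine Measurable.prodMk ?_ (measurable_snd.comp h)
  refine @measurable_into_C1 _ (ms D k) _ fun t => ?_
  exact (measurable_pi_apply t).comp (measurable_fst.comp h)

lemma ms_le (k : ℤ) : ms D k ≤ mΩ := by
  rw [ms, ← measurable_iff_comap_le]
  refine Measurable.prodMk (measurable_pi_iff.2 fun t => ?_) (measurable_T D k)
  exact (measurable_ev1 t).comp (measurable_stp (D.bm k).cont (measurable_B D k) (measurable_T D k))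

lemma measurable_pc (k : ℤ) : Measurable (pc D k) := (measurable_pc_ms D k).mono (ms_le D k) le_rfl

lemma iindep_ms : iIndep (ms D) P := D.indep.iIndep

lemma measurable_BF_ms (n : ℕ) : ∀ k : ℤ, Measurable[⨆ j ∈ Ici k, ms D j] (BF D n k) := by
  induction n with
  | zero => intro k; exact measurable_const
  | succ n ih =>
    intro k
    have h1 : Measurable[⨆ j ∈ Ici k, ms D j] (pc D k) :=
      (measurable_pc_ms D k).mono (le_biSup (ms D) (Set.mem_Ici.2 le_rfl)) le_rfl
    have h2 : Measurable[⨆ j ∈ Ici k, ms D j] (BF D n (k + 1)) := by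
      refine (ih (k + 1)).mono ?_ le_rfl
      exact biSup_mono fun j hj => Set.mem_Ici.2 (by have := Set.mem_Ici.1 hj; omega)
    exact (measurable_catF.comp (h1.prodMk (measurable_fst.comp h2))).prodMk
      ((measurable_snd.comp h1).add (measurable_snd.comp h2))

lemma measurable_PW_ms (n : ℕ) : ∀ k : ℤ, Measurable[⨆ j ∈ Iio k, ms D j] (PW D n k) := by
  induction n with
  | zero => intro k; exact measurable_const
  | succ n ih =>
    intro k
    have h1 : Measurable[⨆ j ∈ Iio k, ms D j] (pc D (k - 1)) :=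
      (measurable_pc_ms D (k - 1)).mono (le_biSup (ms D) (Set.mem_Iio.2 (by omega))) le_rfl
    have h2 : Measurable[⨆ j ∈ Iio k, ms D j] (PW D n (k - 1)) := by
      refine (ih (k - 1)).mono ?_ le_rfl
      exact biSup_mono fun j hj => Set.mem_Iio.2 (by have := Set.mem_Iio.1 hj; omega)
    exact (measurable_catP.comp (h1.prodMk (measurable_fst.comp h2))).prodMk
      ((measurable_snd.comp h1).add (measurable_snd.comp h2))

lemma sup_le' (s : Set ℤ) : (⨆ j ∈ s, ms D j) ≤ mΩ := iSup₂_le fun j _ => ms_le D j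

lemma measurable_BF (n : ℕ) (k : ℤ) : Measurable (BF D n k) :=
  (measurable_BF_ms D n k).mono (sup_le' D _) le_rfl

lemma measurable_PW (n : ℕ) (k : ℤ) : Measurable (PW D n k) :=
  (measurable_PW_ms D n k).mono (sup_le' D _) le_rfl

lemma qf_split {n : ℕ} (t : Fin n → ℝ≥0) (a : Fin n → ℝ) (T τ : ℝ≥0) :
    qf t a (T + τ) = qf t a T + qf (fun i => t i - T) a τ := by
  unfold qf
  rw [← Finset.sum_add_distrib]
  refine Finset.sum_congr rfl fun k _ => ?_
  rw [← Finset.sum_add_distrib]
  refine Finset.sum_congr rfl fun l _ => ?_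
  have h : K1 (min (t k) (t l)) (T + τ) =
      K1 (min (t k) (t l)) T + K1 (min (t k - T) (t l - T)) τ := by
    have h0 : min (t k - T) (t l - T) = min (t k) (t l) - T := by
      rcases le_total (t k) (t l) with h | h
      · rw [min_eq_left h, min_eq_left (tsub_le_tsub_right h T)]
      · rw [min_eq_right h, min_eq_right (tsub_le_tsub_right h T)]
    rw [h0]
    generalize min (t k) (t l) = x
    unfold K1
    rw [← NNReal.coe_add]
    congr 1
    rcases le_total x T with hx | hx
    · rw [min_eq_left hx, tsub_eq_zero_of_le hx, min_eq_left (hx.trans le_self_add)]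
      simp
    · rw [min_eq_right hx]
      conv_lhs => rw [← add_tsub_cancel_of_le hx]
      rw [← min_add_add_left]
  rw [h]
  ring

lemma MM_cat {n : ℕ} (t : Fin n → ℝ≥0) (a : Fin n → ℝ) (u v : C1 × ℝ≥0) :
    MM t a (catF (u, v.1), u.2 + v.2) = MM t a u * MM (fun i => t i - u.2) a v := by
  unfold MM
  simp only
  rw [qf_split]
  have h : ex ev1 t a (catF (u, v.1)) = ex ev1 t a u.1 * ex ev1 (fun i => t i - u.2) a v.1 := by
    unfold ex
    rw [← Complex.exp_add, ← add_mul, ← Complex.ofReal_add, ← Finset.sum_add_distrib]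
    refine congrArg (fun x : ℝ => Complex.exp ((x : ℂ) * Complex.I)) ?_
    refine Finset.sum_congr rfl fun k _ => ?_
    simp only [ev1, catF]
    ring
  rw [h, add_div, Complex.ofReal_add, Complex.exp_add]
  ring

lemma measurable_MM2 {n : ℕ} (t : Fin n → ℝ≥0) (a : Fin n → ℝ) :
    Measurable (fun z : (C1 × ℝ≥0) × (C1 × ℝ≥0) => MM (fun i => t i - z.1.2) a z.2) := by
  unfold MM ex qf K1 ev1
  have h2 : Measurable fun z : (C1 × ℝ≥0) × (C1 × ℝ≥0) => z.1.2 :=
    measurable_snd.comp measurable_fst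
  have h3 : Measurable fun z : (C1 × ℝ≥0) × (C1 × ℝ≥0) => z.2.1 :=
    measurable_fst.comp measurable_snd
  have h4 : Measurable fun z : (C1 × ℝ≥0) × (C1 × ℝ≥0) => z.2.2 :=
    measurable_snd.comp measurable_snd
  have h5 : ∀ i, Measurable fun z : (C1 × ℝ≥0) × (C1 × ℝ≥0) => (z.2.1).1 (t i - z.1.2) :=
    fun i => comp_eval1 h3 (measurable_const.sub h2)
  have h6 : Measurable fun z : (C1 × ℝ≥0) × (C1 × ℝ≥0) =>
      (∑ k, a k * (z.2.1).1 (t k - z.1.2) : ℝ) :=
    Finset.measurable_sum _ fun k _ => (h5 k).const_mul (a k)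
  have h7 : Measurable fun z : (C1 × ℝ≥0) × (C1 × ℝ≥0) =>
      (∑ k, ∑ l, a k * a l *
        ((min (min (t k - z.1.2) (t l - z.1.2)) z.2.2 : ℝ≥0) : ℝ)) := by
    refine Finset.measurable_sum _ fun k _ => Finset.measurable_sum _ fun l _ => ?_
    refine Measurable.const_mul ?_ _
    exact (((measurable_const.sub h2).min (measurable_const.sub h2)).min h4).coe_nnreal_real
  have h8 : Measurable fun x : ℝ => Complex.exp ((x : ℂ) * Complex.I) := by fun_prop
  have h9 : Measurable fun x : ℝ => Complex.exp ((x / 2 : ℝ) : ℂ) := by fun_prop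
  exact (h8.comp h6).mul (h9.comp h7)

lemma qf_zero {n : ℕ} (t : Fin n → ℝ≥0) (a : Fin n → ℝ) : qf t a 0 = 0 := by
  unfold qf K1
  simp

lemma prob_of (D : Pieces mΩ P) : IsProbabilityMeasure P :=
  (D.bm 0).brownian.toIsPreBrownianReal.isGaussianProcess.isProbabilityMeasure

/-- The exponential identity for a concatenation of finitely many pieces. -/
theorem BF_cf (n : ℕ) : ∀ (k : ℤ) {N : ℕ} (t : Fin N → ℝ≥0) (a : Fin N → ℝ),
    ∫ ω, MM t a (BF D n k ω) ∂P = 1 := by
  have hprob := prob_of D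
  induction n with
  | zero =>
    intro k N t a
    simp only [BF]
    unfold MM ex ev1 zp
    simp [qf_zero]
  | succ n ih =>
    intro k N t a
    have h1 : ∀ ω, MM t a (BF D (n + 1) k ω) =
        MM t a (pc D k ω) * MM (fun i => t i - (pc D k ω).2) a (BF D n (k + 1) ω) := by
      intro ω
      exact MM_cat t a (pc D k ω) (BF D n (k + 1) ω)
    simp only [h1]
    have hind : IndepFun (pc D k) (BF D n (k + 1)) P := by
      rw [IndepFun_iff_Indep]
      have h2 := indep_iSup_of_disjoint (ms_le D) (iindep_ms D)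
        (S := {k}) (T := Ici (k + 1)) (by
          rw [Set.disjoint_singleton_left, Set.mem_Ici]; omega)
      refine indep_of_indep_of_le_left (indep_of_indep_of_le_right h2
        (measurable_iff_comap_le.1 (measurable_BF_ms D n (k + 1)))) ?_
      exact (measurable_iff_comap_le.1 (measurable_pc_ms D k)).trans
        (le_biSup (ms D) (Set.mem_singleton k))
    have hm1 := measurable_pc D k
    have hm2 := measurable_BF D n (k + 1)
    have hmap := (indepFun_iff_map_prod_eq_prod_map_map hm1.aemeasurable hm2.aemeasurable).1 hind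
    have := Measure.isProbabilityMeasure_map (μ := P) hm1.aemeasurable
    have := Measure.isProbabilityMeasure_map (μ := P) hm2.aemeasurable
    set Φ : (C1 × ℝ≥0) × (C1 × ℝ≥0) → ℂ := fun z => MM t a z.1 * MM (fun i => t i - z.1.2) a z.2
      with hΦ
    have hΦm : Measurable Φ := ((measurable_MM t a).comp measurable_fst).mul (measurable_MM2 t a)
    have hb : ∀ z, ‖Φ z‖ ≤ cb t a * cb t a := by
      intro z
      rw [hΦ]
      simp only
      rw [norm_mul]
      have h3 : ‖MM (fun i => t i - z.1.2) a z.2‖ ≤ cb t a := by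
        refine (MM_norm _ a _).trans ?_
        unfold cb
        refine Real.exp_le_exp.2 (div_le_div_of_nonneg_right ?_ (by norm_num))
        refine Finset.sum_le_sum fun k _ => Finset.sum_le_sum fun l _ => ?_
        refine mul_le_mul_of_nonneg_left ?_ (abs_nonneg _)
        exact_mod_cast tsub_le_self
      exact mul_le_mul (MM_norm t a _) h3 (norm_nonneg _) ((norm_nonneg _).trans (MM_norm t a z.1))
    have h4 : ∫ ω, MM t a (pc D k ω) * MM (fun i => t i - (pc D k ω).2) a (BF D n (k + 1) ω) ∂P =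
        ∫ z, Φ z ∂((P.map (pc D k)).prod (P.map (BF D n (k + 1)))) := by
      rw [← hmap, integral_map (hm1.prodMk hm2).aemeasurable hΦm.aestronglyMeasurable]
    rw [h4, integral_prod Φ (Integrable.of_bound hΦm.aestronglyMeasurable _
      (Eventually.of_forall hb))]
    have h5 : ∀ u : C1 × ℝ≥0, ∫ v, Φ (u, v) ∂(P.map (BF D n (k + 1))) = MM t a u := by
      intro u
      rw [hΦ]
      simp only
      rw [integral_const_mul, integral_map hm2.aemeasurable
        (measurable_MM _ a).aestronglyMeasurable, ih (k + 1), mul_one]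
    simp only [h5]
    rw [integral_map hm1.aemeasurable (measurable_MM t a).aestronglyMeasurable]
    exact stop_cf (D.bm k) (D.stop k) t a

/-- the whole path -/
def Yp (ω : Ω) : C2 := ⟨fun t => D.Y t ω, D.Y_cont ω⟩

lemma measurable_Yp : Measurable (Yp D) := measurable_into_C2 D.Y_meas

lemma measurable_S (k : ℤ) : Measurable (D.S k) := by
  induction k using Int.induction_on with
  | zero =>
    have : D.S 0 = fun _ => 0 := funext D.S_zero
    rw [this]; exact measurable_const
  | succ i ih =>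
    have : D.S ((i : ℤ) + 1) = fun ω => D.S i ω + D.T i ω := funext (D.S_succ i)
    rw [this]
    exact ih.add (measurable_T D i).coe_nnreal_real
  | pred i ih =>
    have : D.S (-(i : ℤ) - 1) = fun ω => D.S (-i) ω - D.T (-(i : ℤ) - 1) ω := by
      funext ω
      have := D.S_succ (-(i : ℤ) - 1) ω
      rw [sub_add_cancel] at this
      linarith
    rw [this]
    exact ih.sub (measurable_T D _).coe_nnreal_real

/-- the path seen from `S k` -/
def Zk (k : ℤ) (ω : Ω) : C2 := sh (D.S k ω) (Yp D ω)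

lemma measurable_Zk (k : ℤ) : Measurable (Zk D k) :=
  measurable_sh.comp ((measurable_S D k).prodMk (measurable_Yp D))

/-- the good event -/
def Good (ω : Ω) : Prop :=
  (∀ (k : ℤ) (t : ℝ≥0), t ≤ D.T k ω → D.Y (D.S k ω + t) ω - D.Y (D.S k ω) ω = D.B k t ω) ∧
  (∀ M : ℝ, ∃ j : ℤ, M ≤ D.S j ω) ∧ (∀ M : ℝ, ∃ j : ℤ, D.S j ω ≤ M)

lemma S_mono (ω : Ω) : Monotone fun k => D.S k ω := by
  refine monotone_int_of_le_succ fun k => ?_
  rw [D.S_succ k ω]
  have := (D.T k ω).coe_nonneg
  linarith

lemma tsum_top_unb {f : ℕ → ℝ≥0} (h : ∑' n, (f n : ℝ≥0∞) = ⊤) (M : ℝ) :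
    ∃ n : ℕ, M ≤ ∑ i ∈ Finset.range n, (f i : ℝ) := by
  have h1 := ENNReal.tendsto_nat_tsum (fun n => (f n : ℝ≥0∞))
  rw [h] at h1
  have h2 := (h1.eventually (lt_mem_nhds (ENNReal.ofReal_lt_top (r := M)))).exists
  obtain ⟨n, hn⟩ := h2
  refine ⟨n, ?_⟩
  have h3 : (∑ i ∈ Finset.range n, (f i : ℝ≥0∞)) = ENNReal.ofReal (∑ i ∈ Finset.range n, (f i : ℝ)) := by
    rw [ENNReal.ofReal_sum_of_nonneg (fun i _ => (f i).coe_nonneg)]
    simp
  rw [h3] at hn
  by_contra hlt
  exact absurd hn (not_lt.2 (ENNReal.ofReal_le_ofReal (not_le.1 hlt).le))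

lemma good_ae : ∀ᵐ ω ∂P, Good D ω := by
  have h0 : ∀ᵐ ω ∂P, ∀ k, D.B k 0 ω = 0 := ae_all_iff.2 fun k =>
    (D.bm k).brownian.toIsPreBrownianReal.eval_zero_ae_eq_zero
  filter_upwards [h0, D.right, D.left, D.Y_eq] with ω h0 hr hl hY
  refine ⟨?_, ?_, ?_⟩
  · intro k t ht
    rcases lt_or_eq_of_le ht with ht | ht
    · exact hY k t ht
    · rcases eq_or_lt_of_le (by simp : (0:ℝ≥0) ≤ D.T k ω) with hT | hT
      · rw [ht, ← hT]
        simp [h0 k]
      · have hc1 : Continuous fun u : ℝ≥0 => D.Y (D.S k ω + u) ω - D.Y (D.S k ω) ω :=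
          ((D.Y_cont ω).comp (by fun_prop)).sub continuous_const
        have hc2 := (D.bm k).cont ω
        have hE : Set.EqOn (fun u : ℝ≥0 => D.Y (D.S k ω + u) ω - D.Y (D.S k ω) ω)
            (fun u => D.B k u ω) (Set.Iio (D.T k ω)) := fun u hu => hY k u hu
        have hE2 := hE.closure hc1 hc2
        have hcl : closure (Set.Iio (D.T k ω)) = Set.Iic (D.T k ω) :=
          closure_Iio' ⟨0, Set.mem_Iio.2 hT⟩
        rw [hcl] at hE2
        exact hE2 (Set.mem_Iic.2 ht.le)
  · intro M
    obtain ⟨n, hn⟩ := tsum_top_unb hr (M - D.S 1 ω)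
    refine ⟨(n : ℤ) + 1, ?_⟩
    have key : ∀ n : ℕ, D.S ((n : ℤ) + 1) ω =
        D.S 1 ω + ∑ i ∈ Finset.range n, (D.T ((i : ℤ) + 1) ω : ℝ) := by
      intro n
      induction n with
      | zero => simp
      | succ n ih =>
        rw [Finset.sum_range_succ, ← add_assoc, ← ih]
        have := D.S_succ ((n : ℤ) + 1) ω
        push_cast
        rw [this]
    rw [key n]
    linarith
  · intro M
    obtain ⟨n, hn⟩ := tsum_top_unb hl (- M)
    refine ⟨-(n : ℤ), ?_⟩
    have key : ∀ n : ℕ, D.S (-(n : ℤ)) ω =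
        - ∑ i ∈ Finset.range n, (D.T (-((i : ℤ) + 1)) ω : ℝ) := by
      intro n
      induction n with
      | zero => simp [D.S_zero]
      | succ n ih =>
        rw [Finset.sum_range_succ, neg_add, ← ih]
        have := D.S_succ (-((n : ℤ) + 1)) ω
        rw [show -((n : ℤ) + 1) + 1 = -(n : ℤ) by ring] at this
        push_cast
        linarith
    rw [key n]
    linarith

lemma BF_S (n : ℕ) : ∀ (k : ℤ) (ω : Ω), D.S (k + n) ω = D.S k ω + (BF D n k ω).2 := by
  induction n with
  | zero => intro k ω; simp [BF]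
  | succ n ih =>
    intro k ω
    have h1 := ih (k + 1) ω
    rw [D.S_succ k ω] at h1
    rw [show (k + ((n + 1 : ℕ) : ℤ)) = k + 1 + n by push_cast; ring, h1]
    simp only [BF]
    push_cast
    ring

lemma PW_S (n : ℕ) : ∀ (k : ℤ) (ω : Ω), D.S (k - n) ω = D.S k ω - (PW D n k ω).2 := by
  induction n with
  | zero => intro k ω; simp [PW]
  | succ n ih =>
    intro k ω
    have h1 := ih (k - 1) ω
    have h2 := D.S_succ (k - 1) ω
    rw [sub_add_cancel] at h2
    rw [show (k - ((n + 1 : ℕ) : ℤ)) = k - 1 - n by push_cast; ring, h1]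
    simp only [PW]
    push_cast
    linarith

lemma BF_eq {ω : Ω} (hg : Good D ω) (n : ℕ) : ∀ (k : ℤ) (t : ℝ≥0),
    (BF D n k ω).1.1 t = D.Y (D.S k ω + (min t (BF D n k ω).2 : ℝ≥0)) ω - D.Y (D.S k ω) ω := by
  induction n with
  | zero => intro k t; simp [BF, zp]
  | succ n ih =>
    intro k t
    have h1 : (BF D (n + 1) k ω).1.1 t =
        D.B k (min t (D.T k ω)) ω + (BF D n (k + 1) ω).1.1 (t - D.T k ω) := rfl
    have h2 : (BF D (n + 1) k ω).2 = D.T k ω + (BF D n (k + 1) ω).2 := rfl
    rw [h1, h2, ih (k + 1), ← hg.1 k _ (min_le_right _ _), D.S_succ]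
    rcases le_total t (D.T k ω) with h | h
    · rw [min_eq_left h, tsub_eq_zero_of_le h, min_eq_left (h.trans le_self_add)]
      simp
    · rw [min_eq_right h]
      conv_rhs => rw [← add_tsub_cancel_of_le h, min_add_add_left]
      push_cast
      rw [add_assoc]
      ring

lemma PW_eq {ω : Ω} (hg : Good D ω) (n : ℕ) : ∀ (k : ℤ) (t : ℝ≥0),
    (PW D n k ω).1.1 t = D.Y (D.S k ω - (min t (PW D n k ω).2 : ℝ≥0)) ω - D.Y (D.S k ω) ω := by
  induction n with
  | zero => intro k t; simp [PW, zp]
  | succ n ih =>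
    intro k t
    set T := D.T (k - 1) ω with hT
    have h1 : (PW D (n + 1) k ω).1.1 t =
        D.B (k - 1) (min (T - t) T) ω - D.B (k - 1) (min T T) ω
          + (PW D n (k - 1) ω).1.1 (t - T) := rfl
    have h2 : (PW D (n + 1) k ω).2 = T + (PW D n (k - 1) ω).2 := rfl
    have h3 := D.S_succ (k - 1) ω
    rw [sub_add_cancel, ← hT] at h3
    rw [h1, h2, ih (k - 1), ← hg.1 (k - 1) _ (min_le_right _ _),
      ← hg.1 (k - 1) _ (min_le_right _ _), min_self, min_eq_left (tsub_le_self : T - t ≤ T), h3]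
    rcases le_total t T with h | h
    · rw [tsub_eq_zero_of_le h, min_eq_left (h.trans le_self_add), NNReal.coe_sub h]
      simp only [zero_le, min_eq_left, NNReal.coe_zero, sub_zero, sub_self, add_zero]
      rw [show D.S (k - 1) ω + ((T : ℝ) - t) = D.S (k - 1) ω + T - t by ring]
      ring
    · rw [tsub_eq_zero_of_le h]
      have h4 : min t (T + (PW D n (k - 1) ω).2) = T + min (t - T) (PW D n (k - 1) ω).2 := by
        conv_lhs => rw [← add_tsub_cancel_of_le h, min_add_add_left]
      rw [h4]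
      push_cast
      rw [show D.S (k - 1) ω + (T : ℝ) - (T + min ((t - T : ℝ≥0) : ℝ) ((PW D n (k - 1) ω).2 : ℝ)) =
        D.S (k - 1) ω - min ((t - T : ℝ≥0) : ℝ) ((PW D n (k - 1) ω).2 : ℝ) by ring, add_zero]
      ring

lemma fut_Zk (k : ℤ) (ω : Ω) (t : ℝ≥0) :
    (fut (Zk D k ω)).1 t = D.Y (D.S k ω + t) ω - D.Y (D.S k ω) ω := by
  simp [fut, Zk, sh, Yp]

lemma past_Zk (k : ℤ) (ω : Ω) (t : ℝ≥0) :
    (past (Zk D k ω)).1 t = D.Y (D.S k ω - t) ω - D.Y (D.S k ω) ω := by
  simp [past, Zk, sh, Yp, sub_eq_add_neg]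

lemma eventually_ge {ω : Ω} (hg : Good D ω) (k : ℤ) (M : ℝ≥0) :
    ∀ᶠ n : ℕ in atTop, M ≤ (BF D n k ω).2 ∧ M ≤ (PW D n k ω).2 := by
  obtain ⟨j, hj⟩ := hg.2.1 (D.S k ω + M)
  obtain ⟨i, hi⟩ := hg.2.2 (D.S k ω - M)
  filter_upwards [eventually_ge_atTop (j - k).toNat, eventually_ge_atTop (k - i).toNat] with n hn1 hn2
  constructor
  · have h1 : D.S j ω ≤ D.S (k + n) ω := S_mono D ω (by omega)
    rw [BF_S] at h1
    have : (M : ℝ) ≤ (BF D n k ω).2 := by linarith
    exact_mod_cast this
  · have h1 : D.S (k - n) ω ≤ D.S i ω := S_mono D ω (by omega)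
    rw [PW_S] at h1
    have : (M : ℝ) ≤ (PW D n k ω).2 := by linarith
    exact_mod_cast this

/-- The process seen from `S k`: the future is a Brownian motion independent of the past. -/
theorem step0 {W : Measure C1} (hW : IsW W) (k : ℤ) :
    P.map (fun ω => (past (Zk D k ω), fut (Zk D k ω))) =
      (P.map (fun ω => past (Zk D k ω))).prod W := by
  have hprob := prob_of D
  have := hW.prob
  have hmp : Measurable fun ω => past (Zk D k ω) := measurable_past.comp (measurable_Zk D k)
  have hmf : Measurable fun ω => fut (Zk D k ω) := measurable_fut.comp (measurable_Zk D k)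
  have := Measure.isProbabilityMeasure_map (μ := P) hmp.aemeasurable
  have := Measure.isProbabilityMeasure_map (μ := P) (hmp.prodMk hmf).aemeasurable
  refine ext_pair _ _ fun N t t' a a' => ?_
  have hex : Measurable (ex ev1 t a) := measurable_ex measurable_ev1 t a
  have hex' : Measurable (ex ev1 t' a') := measurable_ex measurable_ev1 t' a'
  have hexz : Measurable fun z : C1 × C1 => ex ev1 t a z.1 * ex ev1 t' a' z.2 :=
    (hex.comp measurable_fst).mul (hex'.comp measurable_snd)
  rw [integral_map (hmp.prodMk hmf).aemeasurable hexz.aestronglyMeasurable,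
    integral_prod_mul (ex ev1 t a) (ex ev1 t' a'),
    integral_map hmp.aemeasurable hex.aestronglyMeasurable, hW.gp N t' a']
  -- the identity for finitely many pieces
  have hn : ∀ n : ℕ, ∫ ω, ex ev1 t a (PW D n k ω).1 * MM t' a' (BF D n k ω) ∂P =
      ∫ ω, ex ev1 t a (PW D n k ω).1 ∂P := by
    intro n
    have h2 := indep_iSup_of_disjoint (ms_le D) (iindep_ms D)
      (S := Iio k) (T := Ici k) (by
        rw [Set.disjoint_left]; intro x hx hx'
        have := Set.mem_Iio.1 hx; have := Set.mem_Ici.1 hx'; omega)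
    have h3 : Measurable[⨆ j ∈ Iio k, ms D j] fun ω => ex ev1 t a (PW D n k ω).1 :=
      hex.comp (measurable_fst.comp (measurable_PW_ms D n k))
    have h4 : Measurable[⨆ j ∈ Ici k, ms D j] fun ω => MM t' a' (BF D n k ω) :=
      (measurable_MM t' a').comp (measurable_BF_ms D n k)
    rw [indep_mul (sup_le' D _) (sup_le' D _) h2 h3 h4, BF_cf D n k t' a', mul_one]
  set E : ℂ := Complex.exp (((∑ i, ∑ j, a' i * a' j * K1 (t' i) (t' j)) / 2 : ℝ) : ℂ) with hE
  -- the limits
  have hl1 : Tendsto (fun n : ℕ => ∫ ω, ex ev1 t a (PW D n k ω).1 * MM t' a' (BF D n k ω) ∂P)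
      atTop (𝓝 (∫ ω, ex ev1 t a (past (Zk D k ω)) * (ex ev1 t' a' (fut (Zk D k ω)) * E) ∂P)) := by
    refine tendsto_integral_of_dominated_convergence (fun _ => cb t' a') ?_
      (integrable_const _) ?_ ?_
    · intro n
      exact ((hex.comp (measurable_fst.comp (measurable_PW D n k))).mul
        ((measurable_MM t' a').comp (measurable_BF D n k))).aestronglyMeasurable
    · intro n
      refine Eventually.of_forall fun ω => ?_
      rw [norm_mul, ex_norm, one_mul]
      exact MM_norm t' a' _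
    · filter_upwards [good_ae D] with ω hg
      refine tendsto_const_nhds.congr' ?_
      filter_upwards [eventually_ge D hg k (∑ i, t i + ∑ i, t' i)] with n hn
      have ht : ∀ i, t i ≤ (PW D n k ω).2 := fun i =>
        (Finset.single_le_sum (fun _ _ => by simp) (Finset.mem_univ i)).trans
          (le_self_add.trans hn.2)
      have ht' : ∀ i, t' i ≤ (BF D n k ω).2 := fun i =>
        (Finset.single_le_sum (fun _ _ => by simp) (Finset.mem_univ i)).trans
          (le_add_self.trans hn.1)
      have e1 : ex ev1 t a (PW D n k ω).1 = ex ev1 t a (past (Zk D k ω)) := by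
        unfold ex
        refine congrArg (fun x : ℝ => Complex.exp ((x : ℂ) * Complex.I)) ?_
        refine Finset.sum_congr rfl fun i _ => ?_
        unfold ev1
        rw [PW_eq D hg, min_eq_left (ht i), past_Zk]
      have e2 : ex ev1 t' a' (BF D n k ω).1 = ex ev1 t' a' (fut (Zk D k ω)) := by
        unfold ex
        refine congrArg (fun x : ℝ => Complex.exp ((x : ℂ) * Complex.I)) ?_
        refine Finset.sum_congr rfl fun i _ => ?_
        unfold ev1
        rw [BF_eq D hg, min_eq_left (ht' i), fut_Zk]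
      have e3 : qf t' a' (BF D n k ω).2 = ∑ i, ∑ j, a' i * a' j * K1 (t' i) (t' j) := by
        unfold qf
        refine Finset.sum_congr rfl fun i _ => Finset.sum_congr rfl fun j _ => ?_
        congr 1
        unfold K1
        rw [min_eq_left ((min_le_left _ _).trans (ht' i))]
      unfold MM
      rw [e1, e2, e3]
  have hl2 : Tendsto (fun n : ℕ => ∫ ω, ex ev1 t a (PW D n k ω).1 ∂P)
      atTop (𝓝 (∫ ω, ex ev1 t a (past (Zk D k ω)) ∂P)) := by
    refine tendsto_integral_of_dominated_convergence (fun _ => 1) ?_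
      (integrable_const _) ?_ ?_
    · intro n
      exact (hex.comp (measurable_fst.comp (measurable_PW D n k))).aestronglyMeasurable
    · intro n
      refine Eventually.of_forall fun ω => ?_
      rw [ex_norm]
    · filter_upwards [good_ae D] with ω hg
      refine tendsto_const_nhds.congr' ?_
      filter_upwards [eventually_ge D hg k (∑ i, t i)] with n hn
      have ht : ∀ i, t i ≤ (PW D n k ω).2 := fun i =>
        (Finset.single_le_sum (fun _ _ => by simp) (Finset.mem_univ i)).trans hn.2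
      unfold ex
      refine congrArg (fun x : ℝ => Complex.exp ((x : ℂ) * Complex.I)) ?_
      refine Finset.sum_congr rfl fun i _ => ?_
      unfold ev1
      rw [PW_eq D hg, min_eq_left (ht i), past_Zk]
  simp only [hn] at hl1
  have hkey := tendsto_nhds_unique hl1 hl2
  have h5 : ∫ ω, ex ev1 t a (past (Zk D k ω)) * (ex ev1 t' a' (fut (Zk D k ω)) * E) ∂P =
      (∫ ω, ex ev1 t a (past (Zk D k ω)) * ex ev1 t' a' (fut (Zk D k ω)) ∂P) * E := by
    rw [← integral_mul_const]
    refine integral_congr_ae (Eventually.of_forall fun ω => ?_)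
    simp only
    ring
  rw [h5] at hkey
  rw [← hkey, mul_assoc, hE, ← Complex.exp_add, ← Complex.ofReal_add]
  rw [show ((∑ i, ∑ j, a' i * a' j * K1 (t' i) (t' j)) / 2 +
    -(∑ i, ∑ j, a' i * a' j * K1 (t' i) (t' j)) / 2 : ℝ) = 0 by ring]
  simp

end

end Pool.Agent.R221.FB
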