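import Pool.Agent.R221.FB.Wiener
import Pool.Agent.R221.FB.Defs

/-! The exponential identity for a Brownian motion stopped at a stopping time. -/

namespace Pool.Agent.R221.FB
open MeasureTheory ProbabilityTheory Set Filter
open scoped NNReal ENNReal Topology

lemma indep_mul {Ω : Type*} {m1 m2 mΩ : MeasurableSpace Ω} {P : Measure Ω}
    (h1 : m1 ≤ mΩ) (h2 : m2 ≤ mΩ) (h : Indep m1 m2 P) {Z Y : Ω → ℂ}
    (hZ : Measurable[m1] Z) (hY : Measurable[m2] Y) :
    ∫ ω, Z ω * Y ω ∂P = (∫ ω, Z ω ∂P) * ∫ ω, Y ω ∂P := by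
  have hi : IndepFun Z Y P := by
    rw [IndepFun_iff_Indep]
    exact indep_of_indep_of_le_left (indep_of_indep_of_le_right h (measurable_iff_comap_le.1 hY))
      (measurable_iff_comap_le.1 hZ)
  exact hi.integral_fun_mul_eq_mul_integral (hZ.mono h1 le_rfl).aestronglyMeasurable
    (hY.mono h2 le_rfl).aestronglyMeasurable

lemma K1_sub (x y m : ℝ≥0) (hx : m ≤ x) (hy : m ≤ y) :
    K1 x y = (m : ℝ) + K1 (x - m) (y - m) := by
  unfold K1
  rw [← NNReal.coe_add]
  congr 1
  rcases le_total x y with h | h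
  · rw [min_eq_left h, min_eq_left (tsub_le_tsub_right h m), add_tsub_cancel_of_le hx]
  · rw [min_eq_right h, min_eq_right (tsub_le_tsub_right h m), add_tsub_cancel_of_le hy]

lemma incr_one {Ω : Type*} {mΩ : MeasurableSpace Ω} {P : Measure Ω} {F : Filtration ℝ≥0 mΩ}
    {B : ℝ≥0 → Ω → ℝ} (hB : IsBMFor P F B) (s m : ℝ≥0) (c : ℝ) :
    ∫ ω, Complex.exp (((c * (B (s + m) ω - B s ω) : ℝ) : ℂ) * Complex.I) ∂P =
      Complex.exp ((-(c * c * m) / 2 : ℝ) : ℂ) := by
  have h1 := ((preBM_GP hB.brownian.toIsPreBrownianReal).sub (fun _ : Unit => s + m)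
    (fun _ => s)) 1 (fun _ => ()) (fun _ => c)
  unfold ex at h1
  simp only [Finset.univ_unique, Finset.sum_singleton] at h1
  rw [h1]
  congr 3
  unfold K1
  rw [min_self, min_self, min_eq_right (le_self_add : s ≤ s + m),
    min_eq_left (le_self_add : s ≤ s + m)]
  push_cast
  ring

lemma incr_cf {Ω : Type*} {mΩ : MeasurableSpace Ω} {P : Measure Ω} {F : Filtration ℝ≥0 mΩ}
    {B : ℝ≥0 → Ω → ℝ} (hB : IsBMFor P F B) {κ : Type*} [DecidableEq κ] (a : κ → ℝ) :
    ∀ (N : ℕ) (S : Finset κ), S.card = N → ∀ (t : κ → ℝ≥0) (s : ℝ≥0) (Z : Ω → ℂ),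
      Measurable[F s] Z →
      ∫ ω, Z ω * Complex.exp (((∑ k ∈ S, a k * (B (s + t k) ω - B s ω) : ℝ) : ℂ) * Complex.I) ∂P =
        (∫ ω, Z ω ∂P) *
          Complex.exp ((-(∑ k ∈ S, ∑ l ∈ S, a k * a l * K1 (t k) (t l)) / 2 : ℝ) : ℂ) := by
  intro N
  induction N with
  | zero =>
    intro S hS t s Z hZ
    rw [Finset.card_eq_zero] at hS
    subst hS
    simp
  | succ N ih =>
    intro S hS t s Z hZ
    have hne : S.Nonempty := by
      rw [← Finset.card_pos, hS]; omega
    obtain ⟨k0, hk0, hmin⟩ := S.exists_min_image t hne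
    set m := t k0 with hm
    set c := ∑ k ∈ S, a k with hc
    have hcard : (S.erase k0).card = N := by
      rw [Finset.card_erase_of_mem hk0, hS]; omega
    set Z' : Ω → ℂ := fun ω => Z ω *
      Complex.exp (((c * (B (s + m) ω - B s ω) : ℝ) : ℂ) * Complex.I) with hZ'
    have hle : F s ≤ F (s + m) := F.mono le_self_add
    have hincm : Measurable[F (s + m)] fun ω => (B (s + m) ω - B s ω) := by
      exact (hB.adapted (s + m)).sub ((hB.adapted s).mono hle le_rfl)
    have hexpm : ∀ (mm : MeasurableSpace Ω) (g : Ω → ℝ), Measurable[mm] g →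
        Measurable[mm] fun ω => Complex.exp (((c * g ω : ℝ) : ℂ) * Complex.I) := by
      intro mm g hg
      have : Measurable fun x : ℝ => Complex.exp (((c * x : ℝ) : ℂ) * Complex.I) := by fun_prop
      exact this.comp hg
    have hZ'm : Measurable[F (s + m)] Z' := by
      exact (hZ.mono hle le_rfl).mul (hexpm _ _ hincm)
    have h1 := ih (S.erase k0) hcard (fun k => t k - m) (s + m) Z' hZ'm
    have h2 : ∀ ω, Z ω * Complex.exp (((∑ k ∈ S, a k * (B (s + t k) ω - B s ω) : ℝ) : ℂ)
        * Complex.I) = Z' ω * Complex.exp (((∑ k ∈ S.erase k0,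
          a k * (B (s + m + (t k - m)) ω - B (s + m) ω) : ℝ) : ℂ) * Complex.I) := by
      intro ω
      rw [hZ']
      simp only
      rw [mul_assoc, ← Complex.exp_add, ← add_mul, ← Complex.ofReal_add]
      congr 4
      have h3 : ∑ k ∈ S.erase k0, a k * (B (s + m + (t k - m)) ω - B (s + m) ω) =
          ∑ k ∈ S, a k * (B (s + m + (t k - m)) ω - B (s + m) ω) := by
        rw [Finset.sum_erase]
        rw [← hm, tsub_self, add_zero, sub_self, mul_zero]
      rw [h3, hc, Finset.sum_mul, ← Finset.sum_add_distrib]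
      refine Finset.sum_congr rfl fun k hk => ?_
      rw [add_assoc, add_tsub_cancel_of_le (hmin k hk)]
      ring
    simp only [h2]
    rw [h1]
    have h4 : ∫ ω, Z' ω ∂P = (∫ ω, Z ω ∂P) * Complex.exp ((-(c * c * m) / 2 : ℝ) : ℂ) := by
      rw [← incr_one hB s m c]
      have hind := hB.indep s (s + m) le_self_add
      have hBm : ∀ t, Measurable (B t) := fun t => (hB.adapted t).mono (F.le t) le_rfl
      have hcm : MeasurableSpace.comap (fun ω => B (s + m) ω - B s ω)
          (inferInstance : MeasurableSpace ℝ) ≤ mΩ :=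
        measurable_iff_comap_le.1 ((hBm _).sub (hBm _))
      exact indep_mul (F.le s) hcm hind hZ (hexpm _ _ (comap_measurable _))
    rw [h4, mul_assoc, ← Complex.exp_add, ← Complex.ofReal_add]
    congr 4
    have h5 : ∑ k ∈ S, ∑ l ∈ S, a k * a l * K1 (t k) (t l) =
        c * c * m + ∑ k ∈ S, ∑ l ∈ S, a k * a l * K1 (t k - m) (t l - m) := by
      rw [hc, Finset.sum_mul_sum, Finset.sum_mul, ← Finset.sum_add_distrib]
      refine Finset.sum_congr rfl fun k hk => ?_
      rw [Finset.sum_mul, ← Finset.sum_add_distrib]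
      refine Finset.sum_congr rfl fun l hl => ?_
      rw [K1_sub (t k) (t l) m (hmin k hk) (hmin l hl)]
      ring
    have hz : ∀ x, K1 0 x = 0 := fun x => by unfold K1; simp
    have hz' : ∀ x, K1 x 0 = 0 := fun x => by unfold K1; simp
    have h6 : ∑ k ∈ S.erase k0, ∑ l ∈ S.erase k0, a k * a l * K1 (t k - m) (t l - m) =
        ∑ k ∈ S, ∑ l ∈ S, a k * a l * K1 (t k - m) (t l - m) := by
      rw [Finset.sum_erase]
      · refine Finset.sum_congr rfl fun k _ => ?_
        rw [Finset.sum_erase]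
        rw [← hm, tsub_self, hz', mul_zero]
      · rw [← hm, tsub_self]
        exact Finset.sum_eq_zero fun l _ => by rw [hz, mul_zero]
    rw [h5, h6]
    ring

/-- the quadratic form -/
noncomputable def qf {n : ℕ} (t : Fin n → ℝ≥0) (a : Fin n → ℝ) (s : ℝ≥0) : ℝ :=
  ∑ k, ∑ l, a k * a l * K1 (min (t k) (t l)) s

/-- the exponential functional of a stopped path -/
noncomputable def MM {n : ℕ} (t : Fin n → ℝ≥0) (a : Fin n → ℝ) (z : C1 × ℝ≥0) : ℂ :=
  ex ev1 t a z.1 * Complex.exp ((qf t a z.2 / 2 : ℝ) : ℂ)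

lemma K1_split (x y T : ℝ≥0) : K1 x y = K1 (min x y) T + K1 (x - T) (y - T) := by
  unfold K1
  rw [← NNReal.coe_add]
  congr 1
  rcases le_total x y with h | h
  · rw [min_eq_left h, min_eq_left (tsub_le_tsub_right h T)]
    rcases le_total x T with hT | hT
    · rw [min_eq_left hT, tsub_eq_zero_of_le hT, add_zero]
    · rw [min_eq_right hT, add_tsub_cancel_of_le hT]
  · rw [min_eq_right h, min_eq_right (tsub_le_tsub_right h T)]
    rcases le_total y T with hT | hT
    · rw [min_eq_left hT, tsub_eq_zero_of_le hT, add_zero]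
    · rw [min_eq_right hT, add_tsub_cancel_of_le hT]

lemma qf_bound {n : ℕ} (t : Fin n → ℝ≥0) (a : Fin n → ℝ) (s : ℝ≥0) :
    qf t a s ≤ ∑ k, ∑ l, |a k * a l| * (t k : ℝ) := by
  unfold qf
  refine Finset.sum_le_sum fun k _ => Finset.sum_le_sum fun l _ => ?_
  refine (le_abs_self _).trans ?_
  rw [abs_mul]
  refine mul_le_mul_of_nonneg_left ?_ (abs_nonneg _)
  unfold K1
  rw [abs_of_nonneg (NNReal.coe_nonneg _)]
  exact_mod_cast (min_le_left _ _).trans (min_le_left _ _)

/-- bound for the exponential functional -/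
noncomputable def cb {n : ℕ} (t : Fin n → ℝ≥0) (a : Fin n → ℝ) : ℝ :=
  Real.exp ((∑ k, ∑ l, |a k * a l| * (t k : ℝ)) / 2)

lemma MM_norm {n : ℕ} (t : Fin n → ℝ≥0) (a : Fin n → ℝ) (z : C1 × ℝ≥0) :
    ‖MM t a z‖ ≤ cb t a := by
  unfold MM cb
  rw [norm_mul, ex_norm, one_mul, ← Complex.ofReal_exp, Complex.norm_real, Real.norm_eq_abs,
    abs_of_pos (Real.exp_pos _)]
  exact Real.exp_le_exp.2 (div_le_div_of_nonneg_right (qf_bound t a z.2) (by norm_num))

lemma continuous_qf {n : ℕ} (t : Fin n → ℝ≥0) (a : Fin n → ℝ) : Continuous (qf t a) := by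
  unfold qf K1
  fun_prop

lemma measurable_MM {n : ℕ} (t : Fin n → ℝ≥0) (a : Fin n → ℝ) : Measurable (MM t a) := by
  unfold MM
  have h1 : Measurable fun z : C1 × ℝ≥0 => ex ev1 t a z.1 :=
    (measurable_ex measurable_ev1 t a).comp measurable_fst
  have h2 : Measurable fun z : C1 × ℝ≥0 => Complex.exp ((qf t a z.2 / 2 : ℝ) : ℂ) := by
    have : Continuous fun s : ℝ≥0 => Complex.exp ((qf t a s / 2 : ℝ) : ℂ) := by
      have := continuous_qf t a
      fun_prop
    exact this.measurable.comp measurable_snd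
  exact h1.mul h2

/-- the stopped path of a process with continuous paths -/
def stp {Ω : Type*} (B : ℝ≥0 → Ω → ℝ) (hc : ∀ ω, Continuous fun t => B t ω) (τ : Ω → ℝ≥0)
    (ω : Ω) : C1 := ⟨fun t => B (min t (τ ω)) ω, (hc ω).comp (by fun_prop)⟩

lemma measurable_path {Ω : Type*} {mΩ : MeasurableSpace Ω} {B : ℝ≥0 → Ω → ℝ}
    (hc : ∀ ω, Continuous fun t => B t ω) (hB : ∀ t, Measurable (B t)) :
    Measurable (fun ω => (⟨fun t => B t ω, hc ω⟩ : C1)) := measurable_into_C1 hB

lemma measurable_stp {Ω : Type*} {mΩ : MeasurableSpace Ω} {B : ℝ≥0 → Ω → ℝ}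
    (hc : ∀ ω, Continuous fun t => B t ω) (hB : ∀ t, Measurable (B t)) {τ : Ω → ℝ≥0}
    (hτ : Measurable τ) : Measurable (stp B hc τ) := by
  refine measurable_into_C1 fun t => ?_
  exact comp_eval1 (g := fun ω => (⟨fun t => B t ω, hc ω⟩ : C1)) (measurable_path hc hB)
    (measurable_const.min hτ)

/-- The exponential identity at a stopping time. -/
theorem stop_cf {Ω : Type*} {mΩ : MeasurableSpace Ω} {P : Measure Ω} {F : Filtration ℝ≥0 mΩ}
    {B : ℝ≥0 → Ω → ℝ} (hB : IsBMFor P F B) {T : Ω → ℝ≥0}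
    (hT : ∀ t, MeasurableSet[F t] {ω | T ω ≤ t}) {n : ℕ} (t : Fin n → ℝ≥0) (a : Fin n → ℝ) :
    ∫ ω, MM t a (stp B hB.cont T ω, T ω) ∂P = 1 := by
  have hprob : IsProbabilityMeasure P :=
    hB.brownian.toIsPreBrownianReal.isGaussianProcess.isProbabilityMeasure
  have hBm : ∀ t, Measurable (B t) := fun t => (hB.adapted t).mono (F.le t) le_rfl
  set Minf : Ω → ℂ := fun ω => ex B t a ω *
    Complex.exp (((∑ k, ∑ l, a k * a l * K1 (t k) (t l)) / 2 : ℝ) : ℂ) with hMinf
  have hMinf1 : ∫ ω, Minf ω ∂P = 1 := by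
    rw [hMinf, integral_mul_const, preBM_GP hB.brownian.toIsPreBrownianReal n t a,
      ← Complex.exp_add, ← Complex.ofReal_add]
    rw [show (-(∑ k, ∑ l, a k * a l * K1 (t k) (t l)) / 2 +
      (∑ k, ∑ l, a k * a l * K1 (t k) (t l)) / 2 : ℝ) = 0 by ring]
    simp
  have hMinfint : Integrable Minf P := (integrable_ex hBm t a).mul_const _
  -- optional stopping at a fixed time
  have hfix : ∀ (s : ℝ≥0) (A : Set Ω), MeasurableSet[F s] A →
      ∫ ω in A, Minf ω ∂P = ∫ ω in A, MM t a (stp B hB.cont (fun _ => s) ω, s) ∂P := by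
    intro s A hA
    have hA' : MeasurableSet A := F.le s _ hA
    rw [← integral_indicator hA', ← integral_indicator hA']
    set Z : Ω → ℂ := A.indicator (fun ω => ex (fun u ω => B (min u s) ω) t a ω) with hZ
    have hZm : Measurable[F s] Z := by
      refine Measurable.indicator ?_ hA
      exact @measurable_ex _ _ (F s) _ _ (fun u => (hB.adapted (min u s)).mono
        (F.mono (min_le_right _ _)) le_rfl) t a
    have h1 := incr_cf hB a (Finset.univ : Finset (Fin n)).card Finset.univ rfl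
      (fun k => t k - s) s Z hZm
    have h2 : ∀ ω, A.indicator Minf ω =
        (Z ω * Complex.exp (((∑ k, a k * (B (s + (t k - s)) ω - B s ω) : ℝ) : ℂ) * Complex.I)) *
          Complex.exp (((∑ k, ∑ l, a k * a l * K1 (t k) (t l)) / 2 : ℝ) : ℂ) := by
      intro ω
      by_cases hω : ω ∈ A
      · rw [hZ, indicator_of_mem hω, indicator_of_mem hω, hMinf]
        simp only
        congr 1
        unfold ex
        rw [← Complex.exp_add, ← add_mul, ← Complex.ofReal_add, ← Finset.sum_add_distrib]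
        refine congrArg (fun x : ℝ => Complex.exp ((x : ℂ) * Complex.I)) ?_
        refine Finset.sum_congr rfl fun k _ => ?_
        simp only
        rcases le_total (t k) s with h | h
        · rw [min_eq_left h, tsub_eq_zero_of_le h, add_zero]; ring
        · rw [min_eq_right h, add_tsub_cancel_of_le h]; ring
      · rw [hZ, indicator_of_notMem hω, indicator_of_notMem hω]; simp
    simp only [h2]
    rw [integral_mul_const, h1]
    have h3 : ∀ ω, A.indicator (fun ω => MM t a (stp B hB.cont (fun _ => s) ω, s)) ω =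
        Z ω * Complex.exp ((qf t a s / 2 : ℝ) : ℂ) := by
      intro ω
      by_cases hω : ω ∈ A
      · rw [hZ, indicator_of_mem hω, indicator_of_mem hω]; rfl
      · rw [hZ, indicator_of_notMem hω, indicator_of_notMem hω]; simp
    simp only [h3]
    rw [integral_mul_const, mul_assoc, ← Complex.exp_add, ← Complex.ofReal_add]
    congr 3
    unfold qf
    have h4 : ∑ k, ∑ l, a k * a l * K1 (t k) (t l) =
        ∑ k, ∑ l, a k * a l * K1 (min (t k) (t l)) s +
        ∑ k, ∑ l, a k * a l * K1 (t k - s) (t l - s) := by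
      rw [← Finset.sum_add_distrib]
      refine Finset.sum_congr rfl fun k _ => ?_
      rw [← Finset.sum_add_distrib]
      refine Finset.sum_congr rfl fun l _ => ?_
      rw [K1_split (t k) (t l) s]
      ring
    rw [h4]
    ring
  -- dyadic approximation
  set Tn : ℕ → Ω → ℝ≥0 := fun N ω => (⌈(2:ℝ≥0) ^ N * T ω⌉₊ : ℝ≥0) / 2 ^ N with hTn
  have h2pos : ∀ N : ℕ, (0 : ℝ≥0) < 2 ^ N := fun N => by positivity
  have hTm : Measurable T := measurable_of_Iic fun s => F.le s _ (hT s)
  have hAm : ∀ N j : ℕ, MeasurableSet[F ((j : ℝ≥0) / 2 ^ N)] {ω | ⌈(2:ℝ≥0) ^ N * T ω⌉₊ = j} := by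
    intro N j
    have key : ∀ i : ℕ, {ω | ⌈(2:ℝ≥0) ^ N * T ω⌉₊ ≤ i} = {ω | T ω ≤ (i : ℝ≥0) / 2 ^ N} := by
      intro i
      ext ω
      simp only [Set.mem_ofPred_eq]
      rw [Nat.ceil_le, le_div_iff₀ (h2pos N), mul_comm]
    rcases Nat.eq_zero_or_pos j with hj | hj
    · have : {ω | ⌈(2:ℝ≥0) ^ N * T ω⌉₊ = j} = {ω | ⌈(2:ℝ≥0) ^ N * T ω⌉₊ ≤ j} := by
        ext ω; simp only [Set.mem_ofPred_eq]; omega
      rw [this, key j]
      exact hT _
    · have : {ω | ⌈(2:ℝ≥0) ^ N * T ω⌉₊ = j} =
          {ω | ⌈(2:ℝ≥0) ^ N * T ω⌉₊ ≤ j} \ {ω | ⌈(2:ℝ≥0) ^ N * T ω⌉₊ ≤ j - 1} := by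
        ext ω; simp only [Set.mem_ofPred_eq, Set.mem_diff]; omega
      rw [this, key j, key (j - 1)]
      refine MeasurableSet.diff (hT _) (F.mono ?_ _ (hT _))
      gcongr
      omega
  have happrox : ∀ N, ∫ ω, MM t a (stp B hB.cont (Tn N) ω, Tn N ω) ∂P = 1 := by
    intro N
    have hTnm : Measurable (Tn N) := by
      have : Measurable fun x : ℝ≥0 => (⌈(2:ℝ≥0) ^ N * x⌉₊ : ℝ≥0) / 2 ^ N := by fun_prop
      exact this.comp hTm
    have hmm : Measurable fun ω => MM t a (stp B hB.cont (Tn N) ω, Tn N ω) :=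
      (measurable_MM t a).comp ((measurable_stp hB.cont hBm hTnm).prodMk hTnm)
    have hmi : Integrable (fun ω => MM t a (stp B hB.cont (Tn N) ω, Tn N ω)) P :=
      Integrable.of_bound hmm.aestronglyMeasurable (cb t a)
        (Eventually.of_forall fun ω => MM_norm t a _)
    set A : ℕ → Set Ω := fun j => {ω | ⌈(2:ℝ≥0) ^ N * T ω⌉₊ = j} with hA
    have hAm' : ∀ j, MeasurableSet (A j) := fun j => F.le _ _ (hAm N j)
    have hAd : Pairwise (Function.onFun Disjoint A) := by
      intro i j hij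
      rw [Function.onFun, Set.disjoint_left]
      intro ω hi hj
      exact hij (hi.symm.trans hj)
    have hAU : ⋃ j, A j = univ := by
      ext ω; simp [hA]
    rw [← setIntegral_univ, ← hAU, integral_iUnion hAm' hAd (by rw [hAU]; exact hmi.integrableOn),
      ← hMinf1, ← setIntegral_univ (f := Minf), ← hAU,
      integral_iUnion hAm' hAd (by rw [hAU]; exact hMinfint.integrableOn)]
    refine tsum_congr fun j => ?_
    rw [hfix _ _ (hAm N j)]
    refine setIntegral_congr_fun (hAm' j) fun ω hω => ?_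
    have hω' : ⌈(2:ℝ≥0) ^ N * T ω⌉₊ = j := hω
    have e1 : Tn N ω = (j : ℝ≥0) / 2 ^ N := by rw [hTn]; simp only; rw [hω']
    simp only [e1]
    congr 2
    apply Subtype.ext; funext u
    simp only [stp, e1]
  -- limit
  have hlim : Tendsto (fun N => ∫ ω, MM t a (stp B hB.cont (Tn N) ω, Tn N ω) ∂P) atTop
      (𝓝 (∫ ω, MM t a (stp B hB.cont T ω, T ω) ∂P)) := by
    refine tendsto_integral_of_dominated_convergence (fun _ => cb t a) ?_ (integrable_const _) ?_ ?_
    · intro N
      have hTnm : Measurable (Tn N) := by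
        have : Measurable fun x : ℝ≥0 => (⌈(2:ℝ≥0) ^ N * x⌉₊ : ℝ≥0) / 2 ^ N := by fun_prop
        exact this.comp hTm
      exact ((measurable_MM t a).comp
        ((measurable_stp hB.cont hBm hTnm).prodMk hTnm)).aestronglyMeasurable
    · intro N
      exact Eventually.of_forall fun ω => MM_norm t a _
    · refine Eventually.of_forall fun ω => ?_
      have hTlim : Tendsto (fun N => Tn N ω) atTop (𝓝 (T ω)) := by
        have hb : ∀ N, T ω ≤ Tn N ω ∧ Tn N ω ≤ T ω + 1 / 2 ^ N := by
          intro N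
          constructor
          · rw [hTn]; simp only
            rw [le_div_iff₀ (h2pos N), mul_comm]
            exact Nat.le_ceil _
          · rw [hTn]; simp only
            rw [div_le_iff₀ (h2pos N), add_mul, one_div, inv_mul_cancel₀ (h2pos N).ne',
              mul_comm (T ω)]
            exact (Nat.ceil_lt_add_one (by positivity)).le
        refine tendsto_of_tendsto_of_tendsto_of_le_of_le tendsto_const_nhds ?_
          (fun N => (hb N).1) (fun N => (hb N).2)
        have : Tendsto (fun N : ℕ => T ω + 1 / (2:ℝ≥0) ^ N) atTop (𝓝 (T ω + 0)) := by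
          refine tendsto_const_nhds.add ?_
          have h := NNReal.tendsto_pow_atTop_nhds_zero_of_lt_one (r := 1 / 2) (by
            rw [div_lt_one (by norm_num)]; norm_num)
          refine h.congr fun N => ?_
          rw [one_div_pow]
        simpa using this
      have hcont : Continuous fun s : ℝ≥0 =>
          Complex.exp (((∑ k, a k * B (min (t k) s) ω : ℝ) : ℂ) * Complex.I) *
            Complex.exp ((qf t a s / 2 : ℝ) : ℂ) := by
        have h1 := continuous_qf t a
        have h2 : Continuous fun s : ℝ≥0 => ∑ k, a k * B (min (t k) s) ω := by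
          refine continuous_finset_sum _ fun k _ => continuous_const.mul ?_
          exact (hB.cont ω).comp (by fun_prop)
        fun_prop
      exact (hcont.tendsto (T ω)).comp hTlim
  simp only [happrox] at hlim
  exact (tendsto_nhds_unique hlim tendsto_const_nhds)

end Pool.Agent.R221.FB
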