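import Pool.Agent.R221.FB.Base

/-! Wiener measure on one-sided paths, two-sided Wiener measure. -/

namespace Pool.Agent.R221.FB
open MeasureTheory ProbabilityTheory Set Filter
open scoped NNReal ENNReal Topology

/-- covariance of Brownian motion -/
noncomputable def K1 (s t : ℝ≥0) : ℝ := ((min s t : ℝ≥0) : ℝ)

lemma preBM_GP {Ω : Type*} [MeasurableSpace Ω] {P : Measure Ω} {B : ℝ≥0 → Ω → ℝ}
    (hB : IsPreBrownianReal B P) : GP P B K1 := by
  intro n t a
  have hprob := hB.isGaussianProcess.isProbabilityMeasure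
  have hG := (hB.isGaussianProcess.comp_right t).smul a
  have hG2 := hG.hasGaussianLaw_fun_sum (I := Finset.univ)
  set Z : Ω → ℝ := fun ω => ∑ k, a k * B (t k) ω with hZdef
  have hZ : HasGaussianLaw Z P := hG2
  have hmap := hZ.map_eq_gaussianReal
  have hmem : ∀ k, MemLp (fun ω => a k * B (t k) ω) 2 P := fun k =>
    ((hB.isGaussianProcess.hasGaussianLaw_eval (t k)).memLp_two).const_mul (a k)
  have hmean : P[Z] = 0 := by
    rw [hZdef]
    rw [integral_finset_sum _ (fun k _ => (hmem k).integrable (by norm_num))]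
    refine Finset.sum_eq_zero fun k _ => ?_
    rw [integral_const_mul, hB.integral_eval, mul_zero]
  have hvar : Var[Z; P] = ∑ k, ∑ l, a k * a l * K1 (t k) (t l) := by
    rw [hZdef, variance_fun_sum hmem]
    refine Finset.sum_congr rfl fun k _ => Finset.sum_congr rfl fun l _ => ?_
    rw [covariance_const_mul_left, covariance_const_mul_right, hB.covariance_fun_eval]
    unfold K1
    push_cast
    ring
  have h1 : ∫ ω, ex B t a ω ∂P = charFun (P.map Z) 1 := by
    rw [charFun_apply_real, integral_map hZ.aemeasurable (by fun_prop)]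
    refine integral_congr_ae (Eventually.of_forall fun ω => ?_)
    simp only [ex, hZdef]
    simp
  rw [h1, hmap, charFun_gaussianReal, hmean, ← hvar]
  congr 1
  have : (0:ℝ) ≤ Var[Z; P] := variance_nonneg _ _
  rw [Real.coe_toNNReal _ this]
  push_cast
  ring

/-- `W` is the law of Brownian motion on path space. -/
def IsW (W : Measure C1) : Prop := IsPreBrownianReal ev1 W

lemma IsW.prob {W : Measure C1} (h : IsW W) : IsProbabilityMeasure W :=
  IsGaussianProcess.isProbabilityMeasure (IsPreBrownianReal.isGaussianProcess h)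

lemma IsW.gp {W : Measure C1} (h : IsW W) : GP W ev1 K1 := preBM_GP h

lemma IsW.zero {W : Measure C1} (h : IsW W) : ∀ᵐ b ∂W, b.1 0 = 0 :=
  IsPreBrownianReal.eval_zero_ae_eq_zero h

lemma isW_map {Ω : Type*} [MeasurableSpace Ω] {P : Measure Ω} {B : ℝ≥0 → Ω → ℝ}
    (hB : IsPreBrownianReal B P) {g : Ω → C1} (hg : Measurable g)
    (hgB : ∀ t, (fun ω => (g ω).1 t) =ᵐ[P] B t) : IsW (P.map g) := by
  have hB' : IsPreBrownianReal (fun t ω => (g ω).1 t) P := hB.congr fun t => (hgB t).symm
  constructor
  intro I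
  have h1 := hB'.hasLaw I
  have hm : Measurable (fun f : C1 => I.restrict (fun t => ev1 t f)) :=
    (Finset.measurable_restrict I).comp measurable_subtype_coe
  refine ⟨hm.aemeasurable, ?_⟩
  rw [Measure.map_map hm hg]
  exact h1.map_eq

lemma IsW.of_map {Ω : Type*} [MeasurableSpace Ω] {P : Measure Ω} {g : Ω → C1}
    (hg : Measurable g) (h : IsW (P.map g)) : IsPreBrownianReal (fun t ω => (g ω).1 t) P := by
  constructor
  intro I
  have h1 := IsPreBrownianReal.hasLaw h I
  have hm : Measurable (fun f : C1 => I.restrict (fun t => ev1 t f)) :=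
    (Finset.measurable_restrict I).comp measurable_subtype_coe
  refine ⟨(hm.comp hg).aemeasurable, ?_⟩
  have h2 := h1.map_eq
  rw [Measure.map_map hm hg] at h2
  exact h2

lemma IsW.unique {W W' : Measure C1} (h : IsW W) (h' : IsW W') : W = W' := by
  have := h.prob
  have := h'.prob
  refine ext_cf ev1 hm1 W W' fun n t a => ?_
  rw [h.gp n t a, h'.gp n t a]

/-- stop a path at time `s` -/
def stopC (s : ℝ≥0) (b : C1) : C1 := ⟨fun t => b.1 (min t s), by have := b.2; fun_prop⟩

/-- restart a path at time `s` -/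
def shiftC (s : ℝ≥0) (b : C1) : C1 := ⟨fun t => b.1 (s + t) - b.1 s, by have := b.2; fun_prop⟩

lemma measurable_stopC (s : ℝ≥0) : Measurable (stopC s) :=
  measurable_into_C1 fun t => measurable_ev1 _

lemma measurable_shiftC (s : ℝ≥0) : Measurable (shiftC s) :=
  measurable_into_C1 fun t => (measurable_ev1 _).sub (measurable_ev1 _)

lemma IsW.shift {W : Measure C1} (h : IsW W) (s : ℝ≥0) : W.map (shiftC s) = W := by
  refine IsW.unique (isW_map (IsPreBrownianReal.shift h s) (measurable_shiftC s) fun t => ?_) h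
  exact Eventually.of_forall fun b => rfl

lemma IsW.indep {W : Measure C1} (h : IsW W) (s : ℝ≥0) :
    IndepFun (stopC s) (shiftC s) W := by
  have h1 := IsPreBrownianReal.indepFun_shift h s
  rw [IndepFun_iff_Indep] at h1 ⊢
  refine (indep_of_indep_of_le_left (indep_of_indep_of_le_right h1 ?_) ?_).symm
  · rw [← measurable_iff_comap_le]
    refine @measurable_into_C1 _ (MeasurableSpace.comap (fun (ω : C1) (t : Set.Iic s) => ev1 t ω)
      MeasurableSpace.pi) _ fun t => ?_
    exact (measurable_pi_apply (⟨min t s, Set.mem_Iic.2 (min_le_right _ _)⟩ : Set.Iic s)).comp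
      (comap_measurable (fun (ω : C1) (t : Set.Iic s) => ev1 t ω))
  · rw [← measurable_iff_comap_le]
    refine @measurable_into_C1 _ (MeasurableSpace.comap
      (fun (ω : C1) (t : ℝ≥0) => ev1 (s + t) ω - ev1 s ω) MeasurableSpace.pi) _ fun t => ?_
    exact (measurable_pi_apply t).comp
      (comap_measurable (fun (ω : C1) (t : ℝ≥0) => ev1 (s + t) ω - ev1 s ω))

lemma IsW.markov {W : Measure C1} (h : IsW W) (s : ℝ≥0) :
    W.map (fun b => (stopC s b, shiftC s b)) = (W.map (stopC s)).prod W := by
  have := h.prob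
  have h1 := (indepFun_iff_map_prod_eq_prod_map_map (measurable_stopC s).aemeasurable
    (measurable_shiftC s).aemeasurable).1 (h.indep s)
  rw [h1, h.shift s]

/-- two-sided Wiener measure -/
noncomputable def Q2 (W : Measure C1) : Measure C2 := (W.prod W).map glue

/-- covariance of two-sided Brownian motion -/
noncomputable def K2 (s t : ℝ) : ℝ :=
  K1 (-s).toNNReal (-t).toNNReal + K1 s.toNNReal t.toNNReal

lemma K2_eq (s t : ℝ) : K2 s t = (|s| + |t| - |s - t|) / 2 := by
  unfold K2 K1
  rw [NNReal.coe_min, NNReal.coe_min, Real.coe_toNNReal', Real.coe_toNNReal', Real.coe_toNNReal',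
    Real.coe_toNNReal']
  rcases le_total 0 s with hs | hs <;> rcases le_total 0 t with ht | ht <;>
  rcases le_total s t with hst | hst
  · rw [max_eq_right (by linarith : -s ≤ 0), max_eq_right (by linarith : -t ≤ 0),
      max_eq_left hs, max_eq_left ht, min_self, min_eq_left hst, abs_of_nonneg hs,
      abs_of_nonneg ht, abs_of_nonpos (by linarith : s - t ≤ 0)]
    ring
  · rw [max_eq_right (by linarith : -s ≤ 0), max_eq_right (by linarith : -t ≤ 0),
      max_eq_left hs, max_eq_left ht, min_self, min_eq_right hst, abs_of_nonneg hs,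
      abs_of_nonneg ht, abs_of_nonneg (by linarith : 0 ≤ s - t)]
    ring
  · have : s = 0 := by linarith
    have : t = 0 := by linarith
    subst_vars
    simp
  · rw [max_eq_right (by linarith : -s ≤ 0), max_eq_left (by linarith : 0 ≤ -t),
      max_eq_left hs, max_eq_right ht, min_eq_left (by linarith : 0 ≤ -t),
      min_eq_right hs, abs_of_nonneg hs,
      abs_of_nonpos ht, abs_of_nonneg (by linarith : 0 ≤ s - t)]
    ring
  · rw [max_eq_left (by linarith : 0 ≤ -s), max_eq_right (by linarith : -t ≤ 0),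
      max_eq_right hs, max_eq_left ht, min_eq_right (by linarith : 0 ≤ -s),
      min_eq_left ht, abs_of_nonpos hs,
      abs_of_nonneg ht, abs_of_nonpos (by linarith : s - t ≤ 0)]
    ring
  · have : s = 0 := by linarith
    have : t = 0 := by linarith
    subst_vars
    simp
  · rw [max_eq_left (by linarith : 0 ≤ -s), max_eq_left (by linarith : 0 ≤ -t),
      max_eq_right hs, max_eq_right ht, min_self, min_eq_right (by linarith : -t ≤ -s),
      abs_of_nonpos hs, abs_of_nonpos ht, abs_of_nonpos (by linarith : s - t ≤ 0)]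
    ring
  · rw [max_eq_left (by linarith : 0 ≤ -s), max_eq_left (by linarith : 0 ≤ -t),
      max_eq_right hs, max_eq_right ht, min_self, min_eq_left (by linarith : -s ≤ -t),
      abs_of_nonpos hs, abs_of_nonpos ht, abs_of_nonneg (by linarith : 0 ≤ s - t)]
    ring

lemma Q2_prob {W : Measure C1} (h : IsW W) : IsProbabilityMeasure (Q2 W) := by
  have := h.prob
  exact Measure.isProbabilityMeasure_map measurable_glue.aemeasurable

lemma Q2_gp {W : Measure C1} (h : IsW W) : GP (Q2 W) ev2 K2 := by
  have := h.prob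
  intro n t a
  unfold Q2
  rw [integral_map measurable_glue.aemeasurable
    (measurable_ex measurable_ev2 t a).aestronglyMeasurable]
  have key : ∀ z : C1 × C1, ex ev2 t a (glue z) =
      ex ev1 (fun k => (-(t k)).toNNReal) a z.1 * ex ev1 (fun k => (t k).toNNReal) a z.2 := by
    intro z
    unfold ex
    rw [← Complex.exp_add, ← add_mul, ← Complex.ofReal_add, ← Finset.sum_add_distrib]
    refine congrArg (fun x : ℝ => Complex.exp ((x : ℂ) * Complex.I)) ?_
    refine Finset.sum_congr rfl fun k _ => ?_
    unfold ev1 ev2 glue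
    ring
  simp only [key]
  rw [integral_prod_mul (fun w => ex ev1 (fun k => (-(t k)).toNNReal) a w)
    (fun b => ex ev1 (fun k => (t k).toNNReal) a b), h.gp, h.gp, ← Complex.exp_add,
    ← Complex.ofReal_add]
  refine congrArg (fun x : ℝ => Complex.exp (x : ℂ)) ?_
  unfold K2
  simp only [mul_add, Finset.sum_add_distrib]
  ring

lemma gp_map {ι Ω E : Type*} [MeasurableSpace Ω] [MeasurableSpace E] {μ : Measure Ω}
    {X : ι → E → ℝ} (hX : ∀ i, Measurable (X i)) {K : ι → ι → ℝ} {g : Ω → E} (hg : Measurable g)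
    (h : GP μ (fun i ω => X i (g ω)) K) : GP (μ.map g) X K := by
  intro n t a
  rw [integral_map hg.aemeasurable (measurable_ex hX t a).aestronglyMeasurable]
  exact h n t a

/-- Two-sided Wiener measure is shift invariant. -/
lemma Q2_sh {W : Measure C1} (h : IsW W) (s : ℝ) : (Q2 W).map (sh s) = Q2 W := by
  have := Q2_prob h
  have := Measure.isProbabilityMeasure_map (μ := Q2 W) (measurable_sh_s s).aemeasurable
  have h1 : GP ((Q2 W).map (sh s)) ev2 K2 := by
    refine gp_map measurable_ev2 (measurable_sh_s s) ?_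
    refine ((Q2_gp h).sub (fun t : ℝ => s + t) (fun _ => s)).congr_K fun u v => ?_
    simp only [K2_eq]
    rw [show s + u - (s + v) = u - v by ring, show s + u - s = u by ring,
      show s - (s + v) = - v by ring, abs_neg, sub_self, abs_zero]
    ring
  refine ext_cf ev2 hm2 _ _ fun n t a => ?_
  rw [h1 n t a, Q2_gp h n t a]

lemma past_glue (z : C1 × C1) (h1 : z.1.1 0 = 0) : past (glue z) = z.1 := by
  apply Subtype.ext; funext t
  simp only [past, glue, neg_neg, Real.toNNReal_coe, neg_zero, Real.toNNReal_zero]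
  rw [Real.toNNReal_of_nonpos (by simp : -(t : ℝ) ≤ 0), h1]
  ring

lemma fut_glue (z : C1 × C1) (h2 : z.2.1 0 = 0) : fut (glue z) = z.2 := by
  apply Subtype.ext; funext t
  simp only [fut, glue, Real.toNNReal_coe, neg_zero, Real.toNNReal_zero]
  rw [Real.toNNReal_of_nonpos (by simp : -(t : ℝ) ≤ 0), h2]
  ring

/-- law of (past, future) under a glued measure -/
lemma glue_law {W μ : Measure C1} [IsProbabilityMeasure μ] (h : IsW W)
    (hμ : ∀ᵐ w ∂μ, w.1 0 = 0) :
    ((μ.prod W).map glue).map (fun f => (past f, fut f)) = μ.prod W := by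
  have := h.prob
  rw [Measure.map_map (measurable_past.prodMk measurable_fut) measurable_glue]
  have h1 : ∀ᵐ z ∂(μ.prod W), z.1.1 0 = 0 :=
    Measure.quasiMeasurePreserving_fst.ae hμ
  have h2 : ∀ᵐ z ∂(μ.prod W), z.2.1 0 = 0 :=
    Measure.quasiMeasurePreserving_snd.ae h.zero
  conv_rhs => rw [← Measure.map_id (μ := μ.prod W)]
  refine Measure.map_congr ?_
  filter_upwards [h1, h2] with z hz1 hz2
  simp only [Function.comp_apply, id_eq]
  rw [past_glue z hz1, fut_glue z hz2]

end Pool.Agent.R221.FB
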